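import Pool.Agent.Lib.TSQ.Main
import Pool.Agent.Lib.Q5dc.Sum3

/-!
# The closure of the curvilinear locus and the closure of the curvilinear triples

For a point `K` of the punctual Quot scheme with a frame and its matrices `A`:
`K ∈ closure (Curv k r d)` if and only if `Q5dc.Cl A`.
-/

namespace Pool.Agent.Lib.TSQ

open MvPolynomial Matrix

universe u

variable {k : Type u} [Field k] {r d : ℕ}

theorem jp_pow (n : ℕ) : (Jp k d 1) ^ n = Jp k d n := by
  induction n with
  | zero => rw [pow_zero, Jp_zero]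
  | succ n ih => rw [pow_succ, ih, Jp_mul]

theorem curv_toep (hd : 0 < d) (c : Fin 3 → Fin d → k) :
    Q5dc.Curv (fun ν => toep (c ν)) := by
  refine ⟨Jp k d 1, ?_, ?_, fun ν => ?_⟩
  · rw [Fintype.card_fin, jp_pow, Jp_eq_zero d le_rfl]
  · rw [Fintype.card_fin, jp_pow]
    intro h
    have h1 := congrFun (congrFun h ⟨d - 1, by omega⟩) ⟨0, hd⟩
    simp [Jp] at h1
  · refine ⟨∑ m : Fin d, Polynomial.C (c ν m) * Polynomial.X ^ ((m : ℕ) + 1), ?_, ?_⟩
    · rw [Polynomial.finsetSum_coeff]
      refine Finset.sum_eq_zero fun m _ => ?_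
      simp
    · show toep (c ν) = _
      rw [map_sum, toep]
      refine Finset.sum_congr rfl fun m _ => ?_
      rw [map_mul, map_pow, Polynomial.aeval_C, Polynomial.aeval_X, jp_pow,
        Algebra.algebraMap_eq_smul_one, smul_one_mul]

/-- normal form of the curvilinear triples -/
theorem curv_nf (hd : 0 < d) (T : Fin 3 → Matrix (Fin d) (Fin d) k) :
    Q5dc.Curv T ↔ ∃ G : Matrix (Fin d) (Fin d) k, IsUnit G.det ∧ ∃ c : Fin 3 → Fin d → k,
      ∀ ν, T ν = G * toep (c ν) * G⁻¹ := by
  constructor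
  · rintro ⟨N, h1, h2, h3⟩
    rw [Fintype.card_fin] at h1 h2
    obtain ⟨G, hG, hG'⟩ := comm_regular hd N ⟨d, h1⟩ h2
    refine ⟨G, hG, ?_⟩
    have h4 : ∀ ν, ∃ c : Fin d → k, T ν = G * toep c * G⁻¹ := by
      intro ν
      obtain ⟨p, hp, hT⟩ := h3 ν
      refine hG' (T ν) ?_ ?_
      · rw [hT]
        have h5 : (Polynomial.aeval N p) * (Polynomial.aeval N (Polynomial.X : Polynomial k)) =
            (Polynomial.aeval N (Polynomial.X : Polynomial k)) * (Polynomial.aeval N p) := by
          rw [← map_mul, ← map_mul, mul_comm]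
        rwa [Polynomial.aeval_X] at h5
      · rw [hT]
        obtain ⟨p', hp'⟩ : Polynomial.X ∣ p := Polynomial.X_dvd_iff.2 hp
        refine ⟨d, ?_⟩
        rw [hp', map_mul, Polynomial.aeval_X, (show Commute N (Polynomial.aeval N p') from ?_).mul_pow,
          h1, zero_mul]
        have h5 : (Polynomial.aeval N (Polynomial.X : Polynomial k)) * (Polynomial.aeval N p') =
            (Polynomial.aeval N p') * (Polynomial.aeval N (Polynomial.X : Polynomial k)) := by
          rw [← map_mul, ← map_mul, mul_comm]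
        rwa [Polynomial.aeval_X] at h5
    choose c hc using h4
    exact ⟨c, hc⟩
  · rintro ⟨G, hG, c, hc⟩
    have h1 := (curv_toep hd c).conj G G⁻¹ (Matrix.mul_nonsing_inv G hG)
      (Matrix.nonsing_inv_mul G hG)
    have h2 : T = fun ν => G * toep (c ν) * G⁻¹ := funext hc
    rw [h2]
    exact h1

/-- the matrices of a frame of a curvilinear point form a curvilinear triple -/
theorem frame_curv (hd : 0 < d) (K : PQuot k r d) (hK : K ∈ Curv k r d)
    (q : (Fin r → S k) →ₗ[k] (Fin d → k)) (hq : IsFrame K q)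
    (A : Fin 3 → Matrix (Fin d) (Fin d) k) (hA : ∀ i j, A i * A j = A j * A i)
    (hqA : ∀ (ν : Fin 3) (f : Fin r → S k), q ((X ν : S k) • f) = A ν *ᵥ q f) :
    Q5dc.Curv A := by
  obtain ⟨φ, hφX, -⟩ := exists_ev A hA
  obtain ⟨hev, -⟩ := frame_ev q A hqA φ hφX
  obtain ⟨f, hf, g, hg⟩ := hK
  have hN : IsNilpotent (φ f) := frame_nilp K q hq φ hev f hf
  have hN' : φ f ^ (d - 1) ≠ 0 := by
    intro h
    apply hg
    rw [← hq.2, hev, map_pow, h, zero_mulVec]
  obtain ⟨G, hG, hGc⟩ := comm_regular hd (φ f) hN hN'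
  have hex : ∀ ν, ∃ c : Fin d → k, A ν = G * toep c * G⁻¹ := by
    intro ν
    refine hGc (A ν) ?_ ?_
    · rw [← hφX ν, ← map_mul, ← map_mul, mul_comm]
    · rw [← hφX ν]
      exact frame_nilp K q hq φ hev (X ν) (Ideal.subset_span ⟨ν, rfl⟩)
  choose c hc using hex
  exact (curv_nf hd A).2 ⟨G, hG, c, hc⟩

/-- if the matrices of a frame are in the closure of the curvilinear triples, then the point is in
the closure of the curvilinear locus -/
theorem mem_closure_of_cl [Infinite k] (hr : 0 < r) (hd : 0 < d) (K : PQuot k r d)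
    (q : (Fin r → S k) →ₗ[k] (Fin d → k)) (hq : IsFrame K q)
    (A : Fin 3 → Matrix (Fin d) (Fin d) k) (hA : ∀ i j, A i * A j = A j * A i)
    (hAq : ∀ (ν : Fin 3) (f : Fin r → S k), q ((X ν : S k) • f) = A ν *ᵥ q f)
    (hcl : Q5dc.Cl A) : K ∈ closure (Curv k r d) := by
  intro Z hZ
  obtain ⟨hZ, hsub⟩ := hZ
  obtain ⟨P, hP⟩ := (isClosed_iff Z).1 hZ
  refine (hP K q hq).2 fun F hF => ?_
  have hvan := vanish hr hd F fun K' hK' q' hq' => (hP K' q' hq').1 (hsub hK') F hF
  let v : Fin r → Fin d → k := fun j => q (Pi.single j 1)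
  have hcoord : coord q = fun t => (mon A t.2.1 *ᵥ v t.1) t.2.2 := by
    ext t
    exact frame_coord q A hA hAq t
  let Ag : Fin 3 → Matrix (Fin d) (Fin d) (MvPolynomial (Fin 3 × Fin d × Fin d) k) :=
    fun ν => Matrix.of fun i j => X (ν, i, j)
  let Ψ : Fin r × (Fin 3 →₀ ℕ) × Fin d → MvPolynomial (Fin 3 × Fin d × Fin d) k :=
    fun t => (mon Ag t.2.1 *ᵥ fun i => C (v t.1 i)) t.2.2
  have hΨ : ∀ (B : Fin 3 → Matrix (Fin d) (Fin d) k) t,
      eval (fun s : Fin 3 × Fin d × Fin d => B s.1 s.2.1 s.2.2) (Ψ t) =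
        (mon B t.2.1 *ᵥ v t.1) t.2.2 := by
    intro B t
    show eval _ ((mon Ag t.2.1 *ᵥ fun i => C (v t.1 i)) t.2.2) = _
    rw [RingHom.map_mulVec]
    have h1 : (mon Ag t.2.1).map (eval (fun s : Fin 3 × Fin d × Fin d => B s.1 s.2.1 s.2.2)) =
        mon B t.2.1 := by
      rw [mon_map]
      congr 1
      ext ν i j
      simp [Ag]
    rw [h1]
    congr 2
    ext i
    simp
  have hev : ∀ B : Fin 3 → Matrix (Fin d) (Fin d) k,
      eval (fun s : Fin 3 × Fin d × Fin d => B s.1 s.2.1 s.2.2) (bind₁ Ψ F) =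
        eval (fun t => (mon B t.2.1 *ᵥ v t.1) t.2.2) F := by
    intro B
    rw [eval, eval₂Hom_bind₁]
    show eval₂ _ _ F = eval₂ _ _ F
    congr 1
    ext t
    exact hΨ B t
  have hret := hcl (bind₁ Ψ F) (fun T' hT' => ?_)
  · rw [hcoord, ← hev]
    exact hret
  · show eval (fun s : Fin 3 × Fin d × Fin d => T' s.1 s.2.1 s.2.2) (bind₁ Ψ F) = 0
    obtain ⟨G, hG, c, hc⟩ := (curv_nf hd T').1 hT'
    rw [hev T']
    have hG' : G.det ≠ 0 := hG.ne_zero
    let x : Par r d → k := fun s => match s with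
      | Sum.inl (i, j) => G i j
      | Sum.inr (Sum.inl (ν, m)) => (G.det)⁻¹ * c ν m
      | Sum.inr (Sum.inr (j, i)) => v j i
    have hx1 : Gm x = G := by ext i j; rfl
    have hx2 : ∀ ν, cm x ν = (G.det)⁻¹ • c ν := fun ν => rfl
    have hx3 : ∀ j, vm x j = v j := fun j => rfl
    have hAm : ∀ ν, Am x ν = T' ν := by
      intro ν
      rw [Am_eq x (by rw [hx1]; exact hG'), hx1, hx2, smul_smul, mul_inv_cancel₀ hG', one_smul,
        hc]
    have hphi : (fun t : Fin r × (Fin 3 →₀ ℕ) × Fin d =>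
        (mon T' t.2.1 *ᵥ v t.1) t.2.2) = phi x := by
      funext t
      show _ = (mon (Am x) t.2.1 *ᵥ vm x t.1) t.2.2
      rw [hx3, show Am x = T' from funext hAm]
    rw [hphi]
    exact hvan x

/-- polynomials vanishing at all frames of curvilinear points vanish at all frames of points of
the closure -/
theorem closure_vanish (K : PQuot k r d) (hK : K ∈ closure (Curv k r d))
    (G : MvPolynomial (Fin r × (Fin 3 →₀ ℕ) × Fin d) k)
    (hG : ∀ K' ∈ Curv k r d, ∀ q', IsFrame K' q' → eval (coord q') G = 0)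
    (q : (Fin r → S k) →ₗ[k] (Fin d → k)) (hq : IsFrame K q) : eval (coord q) G = 0 := by
  classical
  let Z : Set (PQuot k r d) := {K' | ∀ q', IsFrame K' q' → eval (coord q') G = 0}
  have hZ : IsClosed Z := by
    rw [isClosed_iff]
    refine ⟨{G' | ∃ g : Matrix (Fin d) (Fin d) k, IsUnit g.det ∧
      G' = bind₁ (fun t : Fin r × (Fin 3 →₀ ℕ) × Fin d =>
        ∑ i, C (g t.2.2 i) * X (t.1, t.2.1, i)) G}, fun K' q' hq' => ?_⟩
    have hev : ∀ (g : Matrix (Fin d) (Fin d) k) (q₁ : (Fin r → S k) →ₗ[k] (Fin d → k)),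
        eval (coord q₁) (bind₁ (fun t : Fin r × (Fin 3 →₀ ℕ) × Fin d =>
          ∑ i, C (g t.2.2 i) * X (t.1, t.2.1, i)) G) =
        eval (coord (Matrix.toLin' g ∘ₗ q₁)) G := by
      intro g q₁
      rw [eval, eval₂Hom_bind₁]
      show eval₂ _ _ G = eval₂ _ _ G
      congr 1
      funext t
      show eval (coord q₁) _ = _
      rw [map_sum]
      show _ = (g *ᵥ (q₁ _)) t.2.2
      rw [Matrix.mulVec, dotProduct]
      refine Finset.sum_congr rfl fun i _ => ?_
      rw [map_mul, eval_C, eval_X]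
      rfl
    constructor
    · rintro h G' ⟨g, hg, rfl⟩
      rw [hev]
      refine h _ ⟨?_, fun f => ?_⟩
      · have h1 : Function.Surjective (Matrix.toLin' g) := by
          intro w
          refine ⟨g⁻¹ *ᵥ w, ?_⟩
          rw [Matrix.toLin'_apply, Matrix.mulVec_mulVec, Matrix.mul_nonsing_inv g hg,
            Matrix.one_mulVec]
        exact h1.comp hq'.1
      · rw [← hq'.2 f]
        show g *ᵥ (q' f) = 0 ↔ q' f = 0
        constructor
        · intro h1
          have h2 : g⁻¹ *ᵥ (g *ᵥ (q' f)) = 0 := by rw [h1, Matrix.mulVec_zero]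
          rwa [Matrix.mulVec_mulVec, Matrix.nonsing_inv_mul g hg, Matrix.one_mulVec] at h2
        · intro h1
          rw [h1, Matrix.mulVec_zero]
    · intro h q₁ hq₁
      -- `q₁ = g ∘ q'`
      obtain ⟨s, hs⟩ := LinearMap.exists_rightInverse_of_surjective q'
        (LinearMap.range_eq_top.2 hq'.1)
      have hs' : ∀ w, q' (s w) = w := fun w => LinearMap.congr_fun hs w
      obtain ⟨s₁, hs₁⟩ := LinearMap.exists_rightInverse_of_surjective q₁
        (LinearMap.range_eq_top.2 hq₁.1)
      have hs₁' : ∀ w, q₁ (s₁ w) = w := fun w => LinearMap.congr_fun hs₁ w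
      have h1 : ∀ f, q₁ (s (q' f)) = q₁ f := by
        intro f
        have h2 : s (q' f) - f ∈ K'.1 := by
          rw [← hq'.2, map_sub, hs', sub_self]
        rw [← hq₁.2, map_sub, sub_eq_zero] at h2
        exact h2
      have h1' : ∀ f, q' (s₁ (q₁ f)) = q' f := by
        intro f
        have h2 : s₁ (q₁ f) - f ∈ K'.1 := by
          rw [← hq₁.2, map_sub, hs₁', sub_self]
        rw [← hq'.2, map_sub, sub_eq_zero] at h2
        exact h2
      let g : Matrix (Fin d) (Fin d) k := LinearMap.toMatrix' (q₁ ∘ₗ s)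
      let g' : Matrix (Fin d) (Fin d) k := LinearMap.toMatrix' (q' ∘ₗ s₁)
      have hgg : g * g' = 1 := by
        rw [← LinearMap.toMatrix'_comp, ← LinearMap.toMatrix'_id]
        congr 1
        refine LinearMap.ext fun w => ?_
        show q₁ (s (q' (s₁ w))) = w
        rw [h1, hs₁']
      have hg : IsUnit g.det := by
        have h3 : g.det * g'.det = 1 := by rw [← det_mul, hgg, det_one]
        exact IsUnit.of_mul_eq_one _ h3
      have h4 : Matrix.toLin' g ∘ₗ q' = q₁ := by
        refine LinearMap.ext fun f => ?_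
        show Matrix.toLin' (LinearMap.toMatrix' (q₁ ∘ₗ s)) (q' f) = q₁ f
        rw [Matrix.toLin'_toMatrix']
        exact h1 f
      have h5 := h _ ⟨g, hg, rfl⟩
      rw [hev, h4] at h5
      exact h5
  have hsub : Curv k r d ⊆ Z := fun K' hK' q' hq' => hG K' hK' q' hq'
  exact (closure_minimal hsub hZ hK) q hq

/-- if the point is in the closure of the curvilinear locus, then the matrices of every frame are
in the closure of the curvilinear triples -/
theorem cl_of_mem_closure (hd : 0 < d) (K : PQuot k r d) (hK : K ∈ closure (Curv k r d))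
    (q : (Fin r → S k) →ₗ[k] (Fin d → k)) (hq : IsFrame K q)
    (A : Fin 3 → Matrix (Fin d) (Fin d) k)
    (hAq : ∀ (ν : Fin 3) (f : Fin r → S k), q ((X ν : S k) • f) = A ν *ᵥ q f) :
    Q5dc.Cl A := by
  classical
  obtain ⟨l, β, hdet⟩ := frame_minor K q hq
  let D : (Fin r × (Fin 3 →₀ ℕ) × Fin d → k) → Matrix (Fin d) (Fin d) k := fun x =>
    Matrix.of fun i j => x (l j, β j, i)
  let E : (Fin r × (Fin 3 →₀ ℕ) × Fin d → k) → Fin 3 → Matrix (Fin d) (Fin d) k := fun x ν =>
    Matrix.of fun i j => x (l j, Finsupp.single ν 1 + β j, i)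
  let Dp : Matrix (Fin d) (Fin d) (MvPolynomial (Fin r × (Fin 3 →₀ ℕ) × Fin d) k) :=
    Matrix.of fun i j => X (l j, β j, i)
  let Ep : Fin 3 → Matrix (Fin d) (Fin d) (MvPolynomial (Fin r × (Fin 3 →₀ ℕ) × Fin d) k) :=
    fun ν => Matrix.of fun i j => X (l j, Finsupp.single ν 1 + β j, i)
  have hDp : ∀ x, Dp.map (eval x) = D x := by
    intro x; ext i j; simp [Dp, D]
  have hEp : ∀ x ν, (Ep ν).map (eval x) = E x ν := by
    intro x ν; ext i j; simp [Ep, E]
  -- the identity `A D = E` for frames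
  have hAD : ∀ (q' : (Fin r → S k) →ₗ[k] (Fin d → k)) (A' : Fin 3 → Matrix (Fin d) (Fin d) k),
      (∀ (ν : Fin 3) (f : Fin r → S k), q' ((X ν : S k) • f) = A' ν *ᵥ q' f) →
      ∀ ν, A' ν * D (coord q') = E (coord q') ν := by
    intro q' A' hA' ν
    ext i j
    have h1 := congrFun (hA' ν (Pi.single (l j) (monomial (β j) 1))) i
    have h2 : (X ν : S k) • (Pi.single (l j) (monomial (β j) 1) : Fin r → S k) =
        Pi.single (l j) (monomial (Finsupp.single ν 1 + β j) 1) := by
      rw [← Pi.single_smul, smul_eq_mul, X, monomial_mul, one_mul]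
    rw [h2] at h1
    exact h1.symm
  have hkey : ∀ (q' : (Fin r → S k) →ₗ[k] (Fin d → k)) (A' : Fin 3 → Matrix (Fin d) (Fin d) k),
      (∀ (ν : Fin 3) (f : Fin r → S k), q' ((X ν : S k) • f) = A' ν *ᵥ q' f) →
      ∀ ν, E (coord q') ν * (D (coord q')).adjugate = (D (coord q')).det • A' ν := by
    intro q' A' hA' ν
    rw [← hAD q' A' hA' ν, Matrix.mul_assoc, Matrix.mul_adjugate, Matrix.mul_smul, Matrix.mul_one]
  -- it is enough to prove it for the scaled triple
  have hscale : Q5dc.Cl (fun ν => (D (coord q)).det • A ν) := by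
    intro F hF
    let F' : MvPolynomial (Fin r × (Fin 3 →₀ ℕ) × Fin d) k :=
      bind₁ (fun s : Fin 3 × Fin d × Fin d => (Ep s.1 * Dp.adjugate) s.2.1 s.2.2) F * Dp.det
    have hF' : ∀ x, eval x F' =
        eval (Q5dc.co fun ν => E x ν * (D x).adjugate) F * (D x).det := by
      intro x
      rw [map_mul]
      congr 1
      · rw [eval, eval₂Hom_bind₁]
        show eval₂ _ _ F = eval₂ _ _ F
        congr 1
        funext s
        show eval x ((Ep s.1 * Dp.adjugate) s.2.1 s.2.2) =
          (E x s.1 * (D x).adjugate) s.2.1 s.2.2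
        rw [← hEp, ← hDp]
        have h1 : (Dp.map (eval x)).adjugate = (Dp.adjugate).map (eval x) := by
          have := (RingHom.map_adjugate (eval x) Dp).symm
          simpa [RingHom.mapMatrix_apply] using this
        rw [h1, ← Matrix.map_mul, Matrix.map_apply]
      · rw [RingHom.map_det]
        congr 1
        exact hDp x
    have hvan : eval (coord q) F' = 0 := by
      refine closure_vanish K hK F' (fun K' hK' q' hq' => ?_) q hq
      rw [hF']
      obtain ⟨A', hA', hA'q⟩ := frame_mat K' q' hq'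
      have h1 : (fun ν => E (coord q') ν * (D (coord q')).adjugate) =
          fun ν => (D (coord q')).det • A' ν := funext fun ν => hkey q' A' hA'q ν
      rw [h1, hF _ ((frame_curv hd K' hK' q' hq' A' hA' hA'q).smul _), zero_mul]
    rw [hF'] at hvan
    have h1 : (fun ν => E (coord q) ν * (D (coord q)).adjugate) =
        fun ν => (D (coord q)).det • A ν := funext fun ν => hkey q A hAq ν
    rw [h1] at hvan
    rcases mul_eq_zero.1 hvan with h | h
    · exact h
    · exact absurd h hdet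
  have h2 := Q5dc.Cl.map (LinearMap.lsmul k (Matrix (Fin d) (Fin d) k) ((D (coord q)).det)⁻¹)
    (fun T hT => hT.smul _) hscale
  have h3 : (fun i => (LinearMap.lsmul k (Matrix (Fin d) (Fin d) k) ((D (coord q)).det)⁻¹)
      ((D (coord q)).det • A i)) = A := by
    funext i
    rw [LinearMap.lsmul_apply, smul_smul, inv_mul_cancel₀ hdet, one_smul]
  rw [h3] at h2
  exact h2

/-- membership in the closure of the curvilinear locus, in terms of matrices -/
theorem mem_closure_iff_cl [Infinite k] (hr : 0 < r) (hd : 0 < d) (K : PQuot k r d)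
    (q : (Fin r → S k) →ₗ[k] (Fin d → k)) (hq : IsFrame K q)
    (A : Fin 3 → Matrix (Fin d) (Fin d) k) (hA : ∀ i j, A i * A j = A j * A i)
    (hAq : ∀ (ν : Fin 3) (f : Fin r → S k), q ((X ν : S k) • f) = A ν *ᵥ q f) :
    K ∈ closure (Curv k r d) ↔ Q5dc.Cl A :=
  ⟨fun h => cl_of_mem_closure hd K h q hq A hAq,
    fun h => mem_closure_of_cl hr hd K q hq A hA hAq h⟩

/-- if all commuting nilpotent triples are limits of curvilinear triples, then the curvilinear locus
is dense in the punctual Quot scheme -/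
theorem closure_univ_of_cl [Infinite k] (hr : 0 < r) (hd : 0 < d)
    (h : ∀ A : Fin 3 → Matrix (Fin d) (Fin d) k, (∀ i j, A i * A j = A j * A i) →
      (∀ i, IsNilpotent (A i)) → Q5dc.Cl A) :
    closure (Curv k r d) = Set.univ := by
  refine Set.eq_univ_of_forall fun K => ?_
  obtain ⟨q, hq⟩ := exists_frame K
  obtain ⟨A, hA, hAq⟩ := frame_mat K q hq
  obtain ⟨φ, hφX, -⟩ := exists_ev A hA
  obtain ⟨hev, -⟩ := frame_ev q A hAq φ hφX
  refine mem_closure_of_cl hr hd K q hq A hA hAq (h A hA fun ν => ?_)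
  rw [← hφX ν]
  exact frame_nilp K q hq φ hev (X ν) (Ideal.subset_span ⟨ν, rfl⟩)

/-- then the punctual Quot scheme is irreducible -/
theorem irreducible_of_cl [Infinite k] (hr : 0 < r) (hd : 0 < d)
    (h : ∀ A : Fin 3 → Matrix (Fin d) (Fin d) k, (∀ i j, A i * A j = A j * A i) →
      (∀ i, IsNilpotent (A i)) → Q5dc.Cl A) :
    IsIrreducible (Set.univ : Set (PQuot k r d)) := by
  rw [← closure_univ_of_cl hr hd h]
  exact (irred_curv hr hd).closure

/-- conversely, irreducibility for one `r ≥ d` implies that all commuting nilpotent triples are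
limits of curvilinear triples -/
theorem cl_of_irreducible [Infinite k] (hd : 0 < d) (hr : d ≤ r)
    (h : IsPreirreducible (Set.univ : Set (PQuot k r d)))
    (A : Fin 3 → Matrix (Fin d) (Fin d) k) (hA : ∀ i j, A i * A j = A j * A i)
    (hn : ∀ i, IsNilpotent (A i)) : Q5dc.Cl A := by
  have hr0 : 0 < r := lt_of_lt_of_le hd hr
  obtain ⟨K, q, hq, hAq, -, -⟩ := mat_frame A hA hn
    (fun j : Fin r => fun i : Fin d => if (i : ℕ) = (j : ℕ) then (1 : k) else 0)
    (fun j => ⟨j, lt_of_lt_of_le j.2 hr⟩) (fun _ => 0) (by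
      have h1 : (Matrix.of fun i j : Fin d => (mon A (0 : Fin 3 →₀ ℕ) *ᵥ
          (fun i : Fin d => if (i : ℕ) = (((⟨j, lt_of_lt_of_le j.2 hr⟩ : Fin r)) : ℕ)
            then (1 : k) else 0)) i) = 1 := by
        have h2 : mon A (0 : Fin 3 →₀ ℕ) = 1 := by simp [mon]
        rw [h2]
        ext i j
        rw [Matrix.of_apply, Matrix.one_mulVec, Matrix.one_apply]
        simp [Fin.ext_iff]
      rw [h1, det_one]
      exact one_ne_zero)
  have hK : K ∈ closure (Curv k r d) := by
    have h1 : (Set.univ ∩ Curv k r d).Nonempty := by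
      obtain ⟨K', hK'⟩ := (irred_curv (k := k) hr0 hd).nonempty
      exact ⟨K', trivial, hK'⟩
    have h2 := subset_closure_inter_of_isPreirreducible_of_isOpen h (isOpen_curv k r d) h1
    exact closure_mono Set.inter_subset_right (h2 (Set.mem_univ K))
  exact cl_of_mem_closure hd K hK q hq A hAq

end Pool.Agent.Lib.TSQ
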