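import Pool.Agent.Lib.TSQ.Mats

/-!
# Shift matrices and nilpotent Toeplitz matrices

* `toep_comm`, `toep_nilp`, `toep_pow_ne`: `toep c = ∑ c_m Jp (m+1)`, `Jp m * Jp n = Jp (m+n)`,
  `Jp n = 0` for `n ≥ d`; the entry `(d-1, 0)` of `(toep c)^(d-1)` is `c_0^(d-1)`.
* `Am_eq`: `adjugate = det • inverse`.
-/

namespace Pool.Agent.Lib.TSQ

open MvPolynomial Matrix

universe u

variable {k : Type u} [Field k] {d : ℕ}

theorem Jp_mul {R : Type u} [CommRing R] (m n : ℕ) : Jp R d m * Jp R d n = Jp R d (m + n) := by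
  ext i j
  simp only [Matrix.mul_apply, Jp, Matrix.of_apply]
  by_cases h : (i : ℕ) = (j : ℕ) + (m + n)
  · rw [if_pos h]
    have hlt : (j : ℕ) + n < d := by have := i.2; omega
    rw [Finset.sum_eq_single (⟨(j : ℕ) + n, hlt⟩ : Fin d)]
    · rw [if_pos (by show (i : ℕ) = (j : ℕ) + n + m; omega), if_pos rfl, mul_one]
    · intro l _ hl
      have : ¬ ((l : ℕ) = (j : ℕ) + n) := fun h' => hl (Fin.ext h')
      rw [if_neg this, mul_zero]
    · intro h'; exact absurd (Finset.mem_univ _) h'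
  · rw [if_neg h]
    refine Finset.sum_eq_zero fun l _ => ?_
    by_cases h1 : (l : ℕ) = (j : ℕ) + n
    · have : ¬ ((i : ℕ) = (l : ℕ) + m) := by omega
      rw [if_neg this, zero_mul]
    · rw [if_neg h1, mul_zero]

theorem Jp_zero {R : Type u} [CommRing R] : Jp R d 0 = 1 := by
  ext i j
  simp only [Jp, Matrix.of_apply, Matrix.one_apply, add_zero, Fin.ext_iff]

theorem Jp_eq_zero {R : Type u} [CommRing R] (n : ℕ) (hn : d ≤ n) : Jp R d n = 0 := by
  ext i j
  simp only [Jp, Matrix.of_apply, Matrix.zero_apply]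
  rw [if_neg (by have := i.2; omega)]

theorem toep_comm (c e : Fin d → k) : toep c * toep e = toep e * toep c := by
  simp only [toep, Finset.sum_mul, Finset.mul_sum, smul_mul_assoc, mul_smul_comm, Jp_mul,
    Finset.smul_sum]
  rw [Finset.sum_comm]
  refine Finset.sum_congr rfl fun i _ => Finset.sum_congr rfl fun j _ => ?_
  rw [smul_comm, add_comm]

namespace ToepAux

theorem toep_apply {R : Type u} [CommRing R] (c : Fin d → R) (i j : Fin d) :
    toep c i j = ∑ m : Fin d, c m * (if (i : ℕ) = (j : ℕ) + ((m : ℕ) + 1) then 1 else 0) := by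
  simp [toep, Matrix.sum_apply, Jp]

theorem toep_low (c : Fin d → k) (i j : Fin d) (h : (i : ℕ) < (j : ℕ) + 1) : toep c i j = 0 := by
  rw [toep_apply]
  refine Finset.sum_eq_zero fun m _ => ?_
  rw [if_neg (by omega), mul_zero]

theorem toep_diag (c : Fin d → k) (hd : 0 < d) (i j : Fin d) (h : (i : ℕ) = (j : ℕ) + 1) :
    toep c i j = c ⟨0, hd⟩ := by
  rw [toep_apply, Finset.sum_eq_single (⟨0, hd⟩ : Fin d)]
  · rw [if_pos (by simpa using h), mul_one]
  · intro m _ hm
    have : (m : ℕ) ≠ 0 := fun h' => hm (Fin.ext h')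
    rw [if_neg (by omega), mul_zero]
  · intro h'; exact absurd (Finset.mem_univ _) h'

theorem pow_low (c : Fin d → k) (n : ℕ) :
    ∀ i j : Fin d, (i : ℕ) < (j : ℕ) + n → (toep c ^ n) i j = 0 := by
  induction n with
  | zero =>
    intro i j h
    rw [pow_zero, Matrix.one_apply, if_neg (fun h' => by rw [h'] at h; omega)]
  | succ n ih =>
    intro i j h
    rw [pow_succ, Matrix.mul_apply]
    refine Finset.sum_eq_zero fun l _ => ?_
    by_cases h1 : (i : ℕ) < (l : ℕ) + n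
    · rw [ih i l h1, zero_mul]
    · rw [toep_low c l j (by omega), mul_zero]

theorem pow_diag (c : Fin d → k) (hd : 0 < d) (n : ℕ) :
    ∀ i j : Fin d, (i : ℕ) = (j : ℕ) + n → (toep c ^ n) i j = c ⟨0, hd⟩ ^ n := by
  induction n with
  | zero =>
    intro i j h
    rw [pow_zero, Matrix.one_apply, if_pos (Fin.ext (by simpa using h)), pow_zero]
  | succ n ih =>
    intro i j h
    have hlt : (j : ℕ) + 1 < d := by have := i.2; omega
    rw [pow_succ, Matrix.mul_apply, Finset.sum_eq_single (⟨(j : ℕ) + 1, hlt⟩ : Fin d)]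
    · rw [ih i ⟨(j : ℕ) + 1, hlt⟩ (by show (i : ℕ) = (j : ℕ) + 1 + n; omega),
        toep_diag c hd ⟨(j : ℕ) + 1, hlt⟩ j rfl, pow_succ]
    · intro l _ hl
      have hl' : (l : ℕ) ≠ (j : ℕ) + 1 := fun h' => hl (Fin.ext h')
      by_cases h1 : (i : ℕ) < (l : ℕ) + n
      · rw [pow_low c n i l h1, zero_mul]
      · rw [toep_low c l j (by omega), mul_zero]
    · intro h'; exact absurd (Finset.mem_univ _) h'

end ToepAux

theorem toep_nilp (c : Fin d → k) : toep c ^ d = 0 := by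
  ext i j
  rw [Matrix.zero_apply]
  exact ToepAux.pow_low c d i j (by have := i.2; omega)

theorem toep_pow_ne (hd : 0 < d) (c : Fin d → k) (hc : c ⟨0, hd⟩ ≠ 0) : toep c ^ (d - 1) ≠ 0 := by
  intro h
  have h1 := ToepAux.pow_diag c hd (d - 1) ⟨d - 1, by omega⟩ ⟨0, hd⟩ (by simp)
  rw [h, Matrix.zero_apply] at h1
  exact pow_ne_zero _ hc h1.symm

theorem toep_smul (a : k) (c : Fin d → k) : toep (a • c) = a • toep c := by
  simp only [toep, Finset.smul_sum, Pi.smul_apply, smul_eq_mul, mul_smul]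

theorem Am_eq {r : ℕ} (x : Par r d → k) (h : (Gm x).det ≠ 0) (ν : Fin 3) :
    Am x ν = Gm x * toep ((Gm x).det • cm x ν) * (Gm x)⁻¹ := by
  have h1 : (Gm x)⁻¹ = (Gm x).det⁻¹ • (Gm x).adjugate := by
    rw [Matrix.inv_def, Ring.inverse_eq_inv']
  rw [toep_smul, h1, Am, mul_smul_comm, mul_smul_comm, smul_mul_assoc, smul_smul,
    inv_mul_cancel₀ h, one_smul]

end Pool.Agent.Lib.TSQ
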