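import Mathlib

/-!
# MP_5dcbc3_ag: the punctual Quot scheme of points on affine 3-space

Closed points, the Zariski topology, the curvilinear locus.
-/

namespace Pool.Agent.Lib.TSQ

noncomputable section

open MvPolynomial

universe u

/-- the coordinate ring `S = k[x_1,x_2,x_3]` of affine 3-space -/
abbrev S (k : Type u) [Field k] : Type u := MvPolynomial (Fin 3) k

/-- the ideal `(x_1,x_2,x_3)` of the origin -/
def orig (k : Type u) [Field k] : Ideal (S k) :=
  Ideal.span (Set.range (X : Fin 3 → S k))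

/-- the module `M = S^r / K` is annihilated by a power of `(x_1,x_2,x_3)` -/
def SuppOrig {k : Type u} [Field k] {r : ℕ} (K : Submodule (S k) (Fin r → S k)) : Prop :=
  ∃ N : ℕ, (orig k) ^ N • (⊤ : Submodule (S k) (Fin r → S k)) ≤ K

/-- the module `M = S^r / K` is annihilated by `(x_1,x_2,x_3)^2` -/
def TwoStep {k : Type u} [Field k] {r : ℕ} (K : Submodule (S k) (Fin r → S k)) : Prop :=
  (orig k) ^ 2 • (⊤ : Submodule (S k) (Fin r → S k)) ≤ K

/-- the closed points of `Quot_r^d(A^3, 0)`: the `S`-submodules `K` of `S^r` with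
`dim_k S^r / K = d` such that `M = S^r / K` is annihilated by a power of `(x_1,x_2,x_3)` -/
structure PQuot (k : Type u) [Field k] (r d : ℕ) : Type u where
  /-- the submodule -/
  K : Submodule (S k) (Fin r → S k)
  /-- the quotient has dimension `d` and is supported at the origin -/
  prop : Module.Finite k ((Fin r → S k) ⧸ K) ∧ Module.finrank k ((Fin r → S k) ⧸ K) = d ∧
    SuppOrig K

variable {k : Type u} [Field k] {r d : ℕ}

/-- a frame of the quotient `M = S^r / K`: a surjective `k`-linear map `S^r → k^d` with kernel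
`K`, that is, the quotient map followed by a `k`-linear isomorphism `M ≅ k^d` -/
def IsFrame (K : PQuot k r d) (q : (Fin r → S k) →ₗ[k] (Fin d → k)) : Prop :=
  Function.Surjective q ∧ ∀ f, q f = 0 ↔ f ∈ K.1

/-- the coordinates of a frame: the `i`-th coordinates of the vectors `q (x^α e_j)` -/
def coord (q : (Fin r → S k) →ₗ[k] (Fin d → k)) : Fin r × (Fin 3 →₀ ℕ) × Fin d → k :=
  fun t => q (Pi.single t.1 (monomial t.2.1 1)) t.2.2

/-- Zariski closed sets: those cut out by polynomials in the coordinates of the frames -/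
def IsZClosed (C : Set (PQuot k r d)) : Prop :=
  ∃ P : Set (MvPolynomial (Fin r × (Fin 3 →₀ ℕ) × Fin d) k),
    ∀ K q, IsFrame K q → (K ∈ C ↔ ∀ F ∈ P, eval (coord q) F = 0)

theorem isZClosed_empty : IsZClosed (∅ : Set (PQuot k r d)) :=
  ⟨{1}, fun K q _ => by simp⟩

theorem isZClosed_sInter (A : Set (Set (PQuot k r d))) (hA : ∀ C ∈ A, IsZClosed C) :
    IsZClosed (⋂₀ A) := by
  classical
  choose! P hP using hA
  refine ⟨⋃ C ∈ A, P C, fun K q hq => ?_⟩
  simp only [Set.mem_sInter, Set.mem_iUnion, exists_prop]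
  constructor
  · rintro h F ⟨C, hC, hF⟩
    exact (hP C hC K q hq).1 (h C hC) F hF
  · intro h C hC
    exact (hP C hC K q hq).2 fun F hF => h F ⟨C, hC, hF⟩

theorem isZClosed_union (C D : Set (PQuot k r d)) (hC : IsZClosed C) (hD : IsZClosed D) :
    IsZClosed (C ∪ D) := by
  obtain ⟨P, hP⟩ := hC
  obtain ⟨Q, hQ⟩ := hD
  refine ⟨{F | ∃ F₁ ∈ P, ∃ F₂ ∈ Q, F = F₁ * F₂}, fun K q hq => ?_⟩
  rw [Set.mem_union, hP K q hq, hQ K q hq]
  constructor
  · rintro (h | h) F ⟨F₁, h₁, F₂, h₂, rfl⟩
    · rw [map_mul, h F₁ h₁, zero_mul]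
    · rw [map_mul, h F₂ h₂, mul_zero]
  · intro h
    by_contra hcon
    push Not at hcon
    obtain ⟨⟨F₁, h₁, h₁'⟩, F₂, h₂, h₂'⟩ := hcon
    have := h (F₁ * F₂) ⟨F₁, h₁, F₂, h₂, rfl⟩
    rw [map_mul] at this
    exact mul_ne_zero h₁' h₂' this

/-- the Zariski topology of the punctual Quot scheme (on closed points) -/
instance instTopPQuot : TopologicalSpace (PQuot k r d) :=
  TopologicalSpace.ofClosed {C | IsZClosed C} isZClosed_empty
    (fun A hA => isZClosed_sInter A hA) (fun C hC D hD => isZClosed_union C D hC hD)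

theorem isClosed_iff (C : Set (PQuot k r d)) : IsClosed C ↔ IsZClosed C := by
  rw [← isOpen_compl_iff]
  show IsZClosed Cᶜᶜ ↔ _
  rw [compl_compl]

/-- the curvilinear locus: `f^(d-1) M ≠ 0` for some `f` in `(x_1,x_2,x_3)`; equivalently
`M ≅ k[t]/(t^d)` with `x_1,x_2,x_3` acting as polynomials in `t` -/
def Curv (k : Type u) [Field k] (r d : ℕ) : Set (PQuot k r d) :=
  {K | ∃ f ∈ orig k, ∃ g : Fin r → S k, f ^ (d - 1) • g ∉ K.1}

end

end Pool.Agent.Lib.TSQ
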