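import Pool.Agent.Lib.TSQ.Defs

/-!
# The curvilinear locus is open

`q h i = eval (coord q) (lin h i)` with `lin h i = ∑ j, ∑ α ∈ (h j).support, C (coeff α (h j)) * X (j, α, i)`.
The complement of `Curv` is cut out by the polynomials `lin (f ^ (d-1) • g) i`, `f ∈ orig k`.
-/

namespace Pool.Agent.Lib.TSQ

open MvPolynomial

universe u

variable {k : Type u} [Field k] {r d : ℕ}

namespace OpenAux

/-- the linear form computing the `i`-th coordinate of `q h` -/
noncomputable def lin (h : Fin r → S k) (i : Fin d) :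
    MvPolynomial (Fin r × (Fin 3 →₀ ℕ) × Fin d) k :=
  ∑ j, ∑ α ∈ (h j).support, C (coeff α (h j)) * X (j, α, i)

theorem eval_lin (q : (Fin r → S k) →ₗ[k] (Fin d → k)) (h : Fin r → S k) (i : Fin d) :
    eval (coord q) (lin h i) = q h i := by
  have h1 : h = ∑ j, ∑ α ∈ (h j).support,
      coeff α (h j) • (Pi.single j (monomial α 1) : Fin r → S k) := by
    funext l
    rw [Finset.sum_apply]
    simp only [Finset.sum_apply, Pi.smul_apply]
    rw [Finset.sum_eq_single l]
    · conv_lhs => rw [← MvPolynomial.support_sum_monomial_coeff (h l)]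
      apply Finset.sum_congr rfl
      intro α _
      rw [Pi.single_eq_same, MvPolynomial.smul_monomial, smul_eq_mul, mul_one]
    · intro j _ hj
      apply Finset.sum_eq_zero
      intro α _
      rw [Pi.single_eq_of_ne hj.symm, smul_zero]
    · intro hl
      exact absurd (Finset.mem_univ l) hl
  have h2 : q h = ∑ j, ∑ α ∈ (h j).support,
      coeff α (h j) • q (Pi.single j (monomial α 1)) := by
    conv_lhs => rw [h1]
    rw [map_sum]
    apply Finset.sum_congr rfl
    intro j _
    rw [map_sum]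
    apply Finset.sum_congr rfl
    intro α _
    rw [map_smul]
  rw [h2]
  unfold lin
  rw [map_sum, Finset.sum_apply]
  apply Finset.sum_congr rfl
  intro j _
  rw [map_sum, Finset.sum_apply]
  apply Finset.sum_congr rfl
  intro α _
  rw [map_mul, eval_C, eval_X, Pi.smul_apply, smul_eq_mul]
  rfl

end OpenAux

theorem isOpen_curv (k : Type u) [Field k] (r d : ℕ) : IsOpen (Curv k r d) := by
  rw [← isClosed_compl_iff, isClosed_iff]
  refine ⟨{F | ∃ f ∈ orig k, ∃ g : Fin r → S k, ∃ i : Fin d,
    F = OpenAux.lin (f ^ (d - 1) • g) i}, fun K q hq => ?_⟩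
  constructor
  · rintro hK F ⟨f, hf, g, i, rfl⟩
    rw [OpenAux.eval_lin]
    have h1 : f ^ (d - 1) • g ∈ K.1 := by
      by_contra hcon
      exact hK ⟨f, hf, g, hcon⟩
    rw [(hq.2 _).2 h1]
    rfl
  · rintro h ⟨f, hf, g, hg⟩
    apply hg
    apply (hq.2 _).1
    funext i
    have h1 := h _ ⟨f, hf, g, i, rfl⟩
    rw [OpenAux.eval_lin] at h1
    exact h1

end Pool.Agent.Lib.TSQ
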