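import Pool.Agent.Lib.TSQ.Reg
import Pool.Agent.Lib.Q5dc.Gen

/-!
# Square-zero triples are limits of curvilinear triples (matrix form)

From `Q5dc.cl_two_step` and the normal form of matrices commuting with a regular nilpotent
matrix.
-/

namespace Pool.Agent.Lib.TSQ

open MvPolynomial Matrix

theorem ret {k : Type*} [Field k] [CharZero k] {d : ℕ}
    (H : MvPolynomial (Fin 3 × Fin d × Fin d) k)
    (hH : ∀ G : Matrix (Fin d) (Fin d) k, IsUnit G.det → ∀ c : Fin 3 → Fin d → k,
      eval (fun t => (G * toep (c t.1) * G⁻¹) t.2.1 t.2.2) H = 0)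
    (A : Fin 3 → Matrix (Fin d) (Fin d) k) (hA : ∀ i j, A i * A j = 0) :
    eval (fun t => A t.1 t.2.1 t.2.2) H = 0 := by
  rcases Nat.eq_zero_or_pos d with hd | hd
  · subst hd
    have h := hH 1 (by simp) 0
    rw [← h]
    congr 1
    congr 1
    funext t
    exact t.2.1.elim0
  · have : Nonempty (Fin d) := ⟨⟨0, hd⟩⟩
    refine Q5dc.cl_two_step A hA H (Q5dc.vanish_of_strict H ?_)
    rintro T ⟨hcomm, hnil, c, hc⟩
    rw [Fintype.card_fin] at hc
    have hN : IsNilpotent (∑ i, c i • T i) := by
      refine Commute.isNilpotent_sum (fun i _ => (hnil i).smul (c i)) fun i j _ _ => ?_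
      exact ((Commute.smul_left (show Commute (T i) (T j) from hcomm i j) _).smul_right _)
    obtain ⟨G, hG, hG'⟩ := comm_regular hd _ hN hc
    have h1 : ∀ i, ∃ e : Fin d → k, T i = G * toep e * G⁻¹ := fun i => by
      refine hG' (T i) ?_ (hnil i)
      rw [Finset.mul_sum, Finset.sum_mul]
      refine Finset.sum_congr rfl fun j _ => ?_
      rw [mul_smul_comm, smul_mul_assoc, hcomm]
    choose e he using h1
    have h2 := hH G hG e
    have h3 : Q5dc.co T = fun t => (G * toep (e t.1) * G⁻¹) t.2.1 t.2.2 := by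
      funext t
      rw [← he]
      rfl
    rw [h3]
    exact h2

end Pool.Agent.Lib.TSQ
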