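import Pool.Agent.Lib.TSQ.Param
import Pool.Agent.Lib.TSQ.Ret
import Pool.Agent.Lib.TSQ.Open

/-!
# Two-step modules lie in the curvilinear component
-/

namespace Pool.Agent.Lib.TSQ

open MvPolynomial Matrix

universe u

variable {k : Type u} [Field k] {r d : ℕ}

theorem mon_map {R R' : Type u} [CommRing R] [CommRing R'] (f : R →+* R')
    (A : Fin 3 → Matrix (Fin d) (Fin d) R) (α : Fin 3 →₀ ℕ) :
    (mon A α).map f = mon (fun ν => (A ν).map f) α := by
  simp only [mon]
  have h : ∀ (M : Matrix (Fin d) (Fin d) R) (n : ℕ), (M ^ n).map f = (M.map f) ^ n := by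
    intro M n
    exact map_pow f.mapMatrix M n
  rw [Matrix.map_mul, Matrix.map_mul, h, h, h]

/-- the nonvanishing polynomial -/
theorem vanish_aux [Infinite k] (hd : 0 < d)
    (P : MvPolynomial (Par r d) k) (l : Fin d → Fin r) (β : Fin d → (Fin 3 →₀ ℕ))
    (x₀ : Par r d → k)
    (hdet : (Matrix.of fun i j => phi x₀ (l j, β j, i)).det ≠ 0)
    (hP : ∀ x : Par r d → k, (Gm x).det ≠ 0 → cm x 0 ⟨0, hd⟩ ≠ 0 →
      (Matrix.of fun i j => phi x (l j, β j, i)).det ≠ 0 → eval x P = 0) : P = 0 := by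
  classical
  obtain ⟨Φ, hΦ⟩ := exists_Phi k r d
  let D : MvPolynomial (Par r d) k := (Matrix.of fun i j => Φ (l j, β j, i)).det
  let Gp : MvPolynomial (Par r d) k := (Gm (X : Par r d → MvPolynomial (Par r d) k)).det
  let cp : MvPolynomial (Par r d) k := X (Sum.inr (Sum.inl (0, ⟨0, hd⟩)))
  have hD : ∀ x, eval x D = (Matrix.of fun i j => phi x (l j, β j, i)).det := by
    intro x
    show eval x (Matrix.det _) = _
    rw [RingHom.map_det]
    congr 1
    ext i j
    simp [RingHom.mapMatrix_apply, hΦ]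
  have hGp : ∀ x, eval x Gp = (Gm x).det := by
    intro x
    show eval x (Matrix.det _) = _
    rw [RingHom.map_det]
    congr 1
    ext i j
    simp [RingHom.mapMatrix_apply, Gm]
  have hcp : ∀ x : Par r d → k, eval x cp = cm x 0 ⟨0, hd⟩ := by
    intro x
    simp [cp, cm]
  have h0 : P * D * Gp * cp = 0 := by
    apply MvPolynomial.funext
    intro x
    rw [map_mul, map_mul, map_mul, hD, hGp, hcp, map_zero]
    by_cases h1 : (Gm x).det = 0
    · rw [h1]; ring
    by_cases h2 : cm x 0 ⟨0, hd⟩ = 0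
    · rw [h2]; ring
    by_cases h3 : (Matrix.of fun i j => phi x (l j, β j, i)).det = 0
    · rw [h3]; ring
    rw [hP x h1 h2 h3]; ring
  have hD0 : D ≠ 0 := by
    intro h
    apply hdet
    rw [← hD, h, map_zero]
  have hG0 : Gp ≠ 0 := by
    intro h
    have : eval (fun s : Par r d => match s with
      | Sum.inl (i, j) => if i = j then (1 : k) else 0
      | _ => 0) Gp = 0 := by rw [h, map_zero]
    rw [hGp] at this
    have h1 : (Gm (fun s : Par r d => match s with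
      | Sum.inl (i, j) => if i = j then (1 : k) else 0
      | _ => 0)) = (1 : Matrix (Fin d) (Fin d) k) := by
      ext i j
      simp [Gm, Matrix.one_apply]
    rw [h1, det_one] at this
    exact one_ne_zero this
  have hc0 : cp ≠ 0 := by
    intro h
    have : eval (fun _ => (1 : k)) cp = 0 := by rw [h, map_zero]
    simp [cp] at this
  rcases mul_eq_zero.1 h0 with h | h
  · rcases mul_eq_zero.1 h with h | h
    · rcases mul_eq_zero.1 h with h | h
      · exact h
      · exact absurd h hD0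
    · exact absurd h hG0
  · exact absurd h hc0

/-- a polynomial which vanishes at all frames of curvilinear points vanishes at all parameters -/
theorem vanish [Infinite k] (hr : 0 < r) (hd : 0 < d)
    (F : MvPolynomial (Fin r × (Fin 3 →₀ ℕ) × Fin d) k)
    (hF : ∀ K ∈ Curv k r d, ∀ q, IsFrame K q → eval (coord q) F = 0) (x : Par r d → k) :
    eval (phi x) F = 0 := by
  obtain ⟨Φ, hΦ⟩ := exists_Phi k r d
  have hev : ∀ y, eval y (bind₁ Φ F) = eval (phi y) F := by
    intro y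
    rw [eval, eval₂Hom_bind₁]
    show eval₂ _ _ F = eval₂ _ _ F
    congr 1
    ext t
    exact hΦ y t
  obtain ⟨x₀, l, β, -, -, h₀⟩ := exists_param (k := k) hr hd
  have hP : bind₁ Φ F = 0 := by
    refine vanish_aux hd _ l β x₀ h₀ fun y h1 h2 h3 => ?_
    obtain ⟨K, hK, q, hq, hc⟩ := param_curv hd y h1 h2 l β h3
    rw [hev, ← hc]
    exact hF K hK q hq
  rw [← hev, hP, map_zero]

/-- the points with `m² M = 0` are in the closure of the curvilinear locus -/
theorem two_step_mem [CharZero k] (hr : 0 < r) (hd : 0 < d) (K : PQuot k r d)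
    (h2 : (orig k) ^ 2 • (⊤ : Submodule (S k) (Fin r → S k)) ≤ K.1) :
    K ∈ closure (Curv k r d) := by
  intro Z hZ
  obtain ⟨hZ, hsub⟩ := hZ
  obtain ⟨P, hP⟩ := (isClosed_iff Z).1 hZ
  obtain ⟨q, hq⟩ := exists_frame K
  refine (hP K q hq).2 fun F hF => ?_
  have hvan := vanish hr hd F fun K' hK' q' hq' => (hP K' q' hq').1 (hsub hK') F hF
  obtain ⟨A, hA, hAq⟩ := frame_mat K q hq
  have hAA : ∀ i j, A i * A j = 0 := two_step K q hq A hAq h2
  let v : Fin r → Fin d → k := fun j => q (Pi.single j 1)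
  have hcoord : coord q = fun t => (mon A t.2.1 *ᵥ v t.1) t.2.2 := by
    ext t
    exact frame_coord q A hA hAq t
  let Ag : Fin 3 → Matrix (Fin d) (Fin d) (MvPolynomial (Fin 3 × Fin d × Fin d) k) :=
    fun ν => Matrix.of fun i j => X (ν, i, j)
  let Ψ : Fin r × (Fin 3 →₀ ℕ) × Fin d → MvPolynomial (Fin 3 × Fin d × Fin d) k :=
    fun t => (mon Ag t.2.1 *ᵥ fun i => C (v t.1 i)) t.2.2
  have hΨ : ∀ (B : Fin 3 → Matrix (Fin d) (Fin d) k) t,
      eval (fun s : Fin 3 × Fin d × Fin d => B s.1 s.2.1 s.2.2) (Ψ t) =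
        (mon B t.2.1 *ᵥ v t.1) t.2.2 := by
    intro B t
    show eval _ ((mon Ag t.2.1 *ᵥ fun i => C (v t.1 i)) t.2.2) = _
    rw [RingHom.map_mulVec]
    have h1 : (mon Ag t.2.1).map (eval (fun s : Fin 3 × Fin d × Fin d => B s.1 s.2.1 s.2.2)) =
        mon B t.2.1 := by
      rw [mon_map]
      congr 1
      ext ν i j
      simp [Ag]
    rw [h1]
    congr 2
    ext i
    simp
  have hev : ∀ B : Fin 3 → Matrix (Fin d) (Fin d) k,
      eval (fun s : Fin 3 × Fin d × Fin d => B s.1 s.2.1 s.2.2) (bind₁ Ψ F) =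
        eval (fun t => (mon B t.2.1 *ᵥ v t.1) t.2.2) F := by
    intro B
    rw [eval, eval₂Hom_bind₁]
    show eval₂ _ _ F = eval₂ _ _ F
    congr 1
    ext t
    exact hΨ B t
  have hret := ret (bind₁ Ψ F) (fun G hG c => ?_) A hAA
  · rw [hcoord, ← hev]
    exact hret
  · rw [hev (fun ν => G * toep (c ν) * G⁻¹)]
    have hG' : G.det ≠ 0 := hG.ne_zero
    let x : Par r d → k := fun s => match s with
      | Sum.inl (i, j) => G i j
      | Sum.inr (Sum.inl (ν, m)) => (G.det)⁻¹ * c ν m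
      | Sum.inr (Sum.inr (j, i)) => v j i
    have hx1 : Gm x = G := by ext i j; rfl
    have hx2 : ∀ ν, cm x ν = (G.det)⁻¹ • c ν := fun ν => rfl
    have hx3 : ∀ j, vm x j = v j := fun j => rfl
    have hAm : ∀ ν, Am x ν = G * toep (c ν) * G⁻¹ := by
      intro ν
      rw [Am_eq x (by rw [hx1]; exact hG'), hx1, hx2, smul_smul, mul_inv_cancel₀ hG', one_smul]
    have hphi : (fun t : Fin r × (Fin 3 →₀ ℕ) × Fin d =>
        (mon (fun ν => G * toep (c ν) * G⁻¹) t.2.1 *ᵥ v t.1) t.2.2) = phi x := by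
      funext t
      show _ = (mon (Am x) t.2.1 *ᵥ vm x t.1) t.2.2
      rw [hx3, show Am x = fun ν => G * toep (c ν) * G⁻¹ from funext hAm]
    rw [hphi]
    exact hvan x

theorem irred_curv [Infinite k] (hr : 0 < r) (hd : 0 < d) : IsIrreducible (Curv k r d) := by
  obtain ⟨x₀, l₀, β₀, h1, h2, h3⟩ := exists_param (k := k) hr hd
  obtain ⟨K₀, hK₀, -⟩ := param_curv hd x₀ h1 h2 l₀ β₀ h3
  refine ⟨⟨K₀, hK₀⟩, ?_⟩
  rintro U V hU hV ⟨K₁, hK₁, hU₁⟩ ⟨K₂, hK₂, hV₂⟩
  obtain ⟨Φ, hΦ⟩ := exists_Phi k r d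
  have hev : ∀ (F : MvPolynomial (Fin r × (Fin 3 →₀ ℕ) × Fin d) k) y,
      eval y (bind₁ Φ F) = eval (phi y) F := by
    intro F y
    rw [eval, eval₂Hom_bind₁]
    show eval₂ _ _ F = eval₂ _ _ F
    congr 1
    ext t
    exact hΦ y t
  have key : ∀ (O : Set (PQuot k r d)), IsOpen O → ∀ K ∈ Curv k r d, K ∈ O →
      ∃ F : MvPolynomial (Fin r × (Fin 3 →₀ ℕ) × Fin d) k, bind₁ Φ F ≠ 0 ∧
        ∀ K' q', IsFrame K' q' → eval (coord q') F ≠ 0 → K' ∈ O := by
    intro O hO K hK hKO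
    obtain ⟨P, hP⟩ := (isClosed_iff Oᶜ).1 (isClosed_compl_iff.2 hO)
    obtain ⟨q, hq⟩ := exists_frame K
    have hnot : ¬ ∀ F ∈ P, eval (coord q) F = 0 := fun h => ((hP K q hq).2 h) hKO
    push Not at hnot
    obtain ⟨F, hF, hne⟩ := hnot
    refine ⟨F, ?_, ?_⟩
    · obtain ⟨x, -, hx⟩ := curv_param hd K hK q hq
      intro h0
      apply hne
      rw [hx, ← hev, h0, map_zero]
    · intro K' q' hq' hne'
      by_contra hK'
      exact hne' ((hP K' q' hq').1 hK' F hF)
  obtain ⟨F₁, hF₁, hF₁'⟩ := key U hU K₁ hK₁ hU₁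
  obtain ⟨F₂, hF₂, hF₂'⟩ := key V hV K₂ hK₂ hV₂
  have hprod : bind₁ Φ F₁ * bind₁ Φ F₂ ≠ 0 := mul_ne_zero hF₁ hF₂
  by_contra hcon
  apply hprod
  refine vanish_aux hd _ l₀ β₀ x₀ h3 fun x g1 g2 g3 => ?_
  obtain ⟨K, hK, q, hq, hc⟩ := param_curv hd x g1 g2 l₀ β₀ g3
  rw [map_mul, hev, hev, ← hc]
  by_contra hne
  obtain ⟨hn1, hn2⟩ := mul_ne_zero_iff.1 hne
  exact hcon ⟨K, hK, hF₁' K q hq hn1, hF₂' K q hq hn2⟩

theorem curv_component [Infinite k] (hr : 0 < r) (hd : 0 < d) :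
    closure (Curv k r d) ∈ irreducibleComponents (PQuot k r d) := by
  refine ⟨(irred_curv hr hd).closure, ?_⟩
  intro T hT hle
  have hne : (T ∩ Curv k r d).Nonempty := by
    obtain ⟨K, hK⟩ := (irred_curv (k := k) hr hd).nonempty
    exact ⟨K, hle (subset_closure hK), hK⟩
  have := subset_closure_inter_of_isPreirreducible_of_isOpen hT.isPreirreducible
    (isOpen_curv k r d) hne
  exact this.trans (closure_mono Set.inter_subset_right)

/-- the main theorem -/
theorem main [CharZero k] (hr : 0 < r) (hd : 0 < d) :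
    closure (Curv k r d) ∈ irreducibleComponents (PQuot k r d) ∧
    (∀ K : PQuot k r d, TwoStep K.K → K ∈ closure (Curv k r d)) ∧
    ∀ C ∈ irreducibleComponents (PQuot k r d), C ≠ closure (Curv k r d) →
      ∃ O : Set (PQuot k r d), IsOpen O ∧ (C ∩ O).Nonempty ∧
        ∀ K ∈ C ∩ O, ¬ TwoStep K.K := by
  refine ⟨curv_component hr hd, fun K => two_step_mem hr hd K, fun C hC hne => ?_⟩
  refine ⟨(closure (Curv k r d))ᶜ, isClosed_closure.isOpen_compl, ?_, ?_⟩
  · by_contra hcon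
    rw [Set.not_nonempty_iff_eq_empty] at hcon
    have hsub : C ⊆ closure (Curv k r d) := by
      intro K hK
      by_contra hK'
      have : K ∈ C ∩ (closure (Curv k r d))ᶜ := ⟨hK, hK'⟩
      rw [hcon] at this
      exact this
    exact hne (Set.Subset.antisymm hsub (hC.2 (curv_component hr hd).1 hsub))
  · rintro K ⟨-, hK⟩ h2
    exact hK (two_step_mem hr hd K h2)

end Pool.Agent.Lib.TSQ
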