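import Pool.Agent.Lib.TSQ.Mats

/-!
# From frames to matrices

* `exists_ev`: a commuting triple defines an algebra homomorphism `S → M_d(k)` (for instance
  `AddMonoidAlgebra.lift` with the monoid homomorphism `α ↦ mon A α`; or `MvPolynomial.aeval` into the
  commutative subalgebra `Algebra.adjoin k (Set.range A)`).
* `frame_mat`: multiplication by `x_ν` on `M = S^r / K`, transported to `k^d` by the frame `q`
  (`q` is onto and its kernel is an `S`-submodule, so `A ν (q f) := q (x_ν f)` is well defined).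
* `frame_ev`: hence `q (g • f) = φ g *ᵥ q f` and `q f = ∑ j, φ (f j) *ᵥ q (e_j)`.
* `frame_coord`: hence the coordinates of a frame are `(A^α v_j)_i`, `v_j = q (e_j)`.
-/

namespace Pool.Agent.Lib.TSQ

open MvPolynomial Matrix

universe u

variable {k : Type u} [Field k] {r d : ℕ}

namespace MatAAux

theorem mon_add (A : Fin 3 → Matrix (Fin d) (Fin d) k) (hA : ∀ i j, A i * A j = A j * A i)
    (α β : Fin 3 →₀ ℕ) : mon A (α + β) = mon A α * mon A β := by
  have h01 : Commute (A 1 ^ α 1) (A 0 ^ β 0) := Commute.pow_pow (hA 1 0) _ _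
  have h02 : Commute (A 2 ^ α 2) (A 0 ^ β 0) := Commute.pow_pow (hA 2 0) _ _
  have h12 : Commute (A 2 ^ α 2) (A 1 ^ β 1) := Commute.pow_pow (hA 2 1) _ _
  unfold mon
  rw [Finsupp.add_apply, Finsupp.add_apply, Finsupp.add_apply, pow_add, pow_add, pow_add]
  calc A 0 ^ α 0 * A 0 ^ β 0 * (A 1 ^ α 1 * A 1 ^ β 1) * (A 2 ^ α 2 * A 2 ^ β 2)
      = A 0 ^ α 0 * (A 0 ^ β 0 * A 1 ^ α 1) * (A 1 ^ β 1 * A 2 ^ α 2) * A 2 ^ β 2 := by
        simp only [mul_assoc]
    _ = A 0 ^ α 0 * (A 1 ^ α 1 * A 0 ^ β 0) * (A 2 ^ α 2 * A 1 ^ β 1) * A 2 ^ β 2 := by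
        rw [h01.eq, h12.eq]
    _ = A 0 ^ α 0 * A 1 ^ α 1 * (A 0 ^ β 0 * A 2 ^ α 2) * A 1 ^ β 1 * A 2 ^ β 2 := by
        simp only [mul_assoc]
    _ = A 0 ^ α 0 * A 1 ^ α 1 * (A 2 ^ α 2 * A 0 ^ β 0) * A 1 ^ β 1 * A 2 ^ β 2 := by
        rw [h02.eq]
    _ = _ := by
        simp only [mul_assoc]

/-- the monoid homomorphism of a commuting triple -/
def monH (A : Fin 3 → Matrix (Fin d) (Fin d) k) (hA : ∀ i j, A i * A j = A j * A i) :
    Multiplicative (Fin 3 →₀ ℕ) →* Matrix (Fin d) (Fin d) k where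
  toFun α := mon A (Multiplicative.toAdd α)
  map_one' := by
    change mon A 0 = 1
    simp [mon]
  map_mul' α β := mon_add A hA _ _

end MatAAux

open MatAAux

theorem exists_ev (A : Fin 3 → Matrix (Fin d) (Fin d) k) (hA : ∀ i j, A i * A j = A j * A i) :
    ∃ φ : S k →ₐ[k] Matrix (Fin d) (Fin d) k,
      (∀ ν, φ (X ν) = A ν) ∧ ∀ α : Fin 3 →₀ ℕ, φ (monomial α 1) = mon A α := by
  let φ : S k →ₐ[k] Matrix (Fin d) (Fin d) k :=
    AddMonoidAlgebra.lift k (Matrix (Fin d) (Fin d) k) (Fin 3 →₀ ℕ) (monH A hA)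
  have h1 : ∀ α : Fin 3 →₀ ℕ, φ (monomial α 1) = mon A α := by
    intro α
    have h2 : φ (monomial α 1) = (1 : k) • monH A hA (Multiplicative.ofAdd α) :=
      AddMonoidAlgebra.lift_single _ _ _
    rw [h2, one_smul]
    rfl
  refine ⟨φ, fun ν => ?_, h1⟩
  have h3 : (X ν : S k) = monomial (Finsupp.single ν 1) 1 := rfl
  rw [h3, h1]
  unfold mon
  fin_cases ν <;> simp

theorem frame_mat (K : PQuot k r d) (q : (Fin r → S k) →ₗ[k] (Fin d → k)) (hq : IsFrame K q) :
    ∃ A : Fin 3 → Matrix (Fin d) (Fin d) k, (∀ i j, A i * A j = A j * A i) ∧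
      ∀ (ν : Fin 3) (f : Fin r → S k), q ((X ν : S k) • f) = A ν *ᵥ q f := by
  obtain ⟨g, hg⟩ := LinearMap.exists_rightInverse_of_surjective q
    (LinearMap.range_eq_top.2 hq.1)
  have hg' : ∀ v, q (g v) = v := fun v => LinearMap.congr_fun hg v
  let M : Fin 3 → ((Fin r → S k) →ₗ[k] (Fin r → S k)) := fun ν =>
    { toFun := fun f => (X ν : S k) • f
      map_add' := fun a b => smul_add _ a b
      map_smul' := fun c a => smul_comm _ c a }
  let T : Fin 3 → ((Fin d → k) →ₗ[k] (Fin d → k)) := fun ν => q ∘ₗ M ν ∘ₗ g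
  have hT : ∀ ν f, q ((X ν : S k) • f) = T ν (q f) := by
    intro ν f
    have h1 : f - g (q f) ∈ K.1 := by
      rw [← hq.2, map_sub, hg', sub_self]
    have h2 : (X ν : S k) • (f - g (q f)) ∈ K.1 := K.1.smul_mem _ h1
    rw [← hq.2, smul_sub, map_sub, sub_eq_zero] at h2
    exact h2
  have hcomm : ∀ i j, T i ∘ₗ T j = T j ∘ₗ T i := by
    intro i j
    refine LinearMap.ext fun v => ?_
    obtain ⟨f, rfl⟩ := hq.1 v
    change T i (T j (q f)) = T j (T i (q f))
    rw [← hT j f, ← hT i f, ← hT, ← hT, smul_comm]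
  refine ⟨fun ν => LinearMap.toMatrix' (T ν), fun i j => ?_, fun ν f => ?_⟩
  · rw [← LinearMap.toMatrix'_comp, ← LinearMap.toMatrix'_comp, hcomm]
  · rw [LinearMap.toMatrix'_mulVec, hT]

theorem frame_ev (q : (Fin r → S k) →ₗ[k] (Fin d → k))
    (A : Fin 3 → Matrix (Fin d) (Fin d) k)
    (hq : ∀ (ν : Fin 3) (f : Fin r → S k), q ((X ν : S k) • f) = A ν *ᵥ q f)
    (φ : S k →ₐ[k] Matrix (Fin d) (Fin d) k) (hφ : ∀ ν, φ (X ν) = A ν) :
    (∀ (g : S k) (f : Fin r → S k), q (g • f) = φ g *ᵥ q f) ∧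
      ∀ f : Fin r → S k, q f = ∑ j, φ (f j) *ᵥ q (Pi.single j 1) := by
  have h1 : ∀ (g : S k) (f : Fin r → S k), q (g • f) = φ g *ᵥ q f := by
    intro g
    induction g using MvPolynomial.induction_on with
    | C a =>
      intro f
      have h2 : (C a : S k) • f = a • f := by
        funext i
        rw [Pi.smul_apply, Pi.smul_apply, smul_eq_mul, MvPolynomial.C_mul']
      have h3 : φ (C a) = algebraMap k _ a := φ.commutes a
      rw [h2, map_smul, h3, Algebra.algebraMap_eq_smul_one, smul_mulVec, one_mulVec]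
    | add p p' hp hp' =>
      intro f
      rw [add_smul, map_add, hp, hp', map_add, add_mulVec]
    | mul_X p ν hp =>
      intro f
      rw [mul_smul, hp, hq, map_mul, hφ, mulVec_mulVec]
  refine ⟨h1, fun f => ?_⟩
  have h2 : f = ∑ j, f j • (Pi.single j 1 : Fin r → S k) := by
    funext i
    rw [Finset.sum_apply, Finset.sum_eq_single i]
    · rw [Pi.smul_apply, Pi.single_eq_same, smul_eq_mul, mul_one]
    · intro j _ hj
      rw [Pi.smul_apply, Pi.single_eq_of_ne hj.symm, smul_zero]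
    · intro h
      exact absurd (Finset.mem_univ i) h
  conv_lhs => rw [h2]
  rw [map_sum]
  exact Finset.sum_congr rfl fun j _ => h1 _ _

theorem frame_coord (q : (Fin r → S k) →ₗ[k] (Fin d → k))
    (A : Fin 3 → Matrix (Fin d) (Fin d) k) (hA : ∀ i j, A i * A j = A j * A i)
    (hq : ∀ (ν : Fin 3) (f : Fin r → S k), q ((X ν : S k) • f) = A ν *ᵥ q f)
    (t : Fin r × (Fin 3 →₀ ℕ) × Fin d) :
    coord q t = (mon A t.2.1 *ᵥ q (Pi.single t.1 1)) t.2.2 := by
  obtain ⟨φ, hφ, hm⟩ := exists_ev A hA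
  have h1 := (frame_ev q A hq φ hφ).1 (monomial t.2.1 1) (Pi.single t.1 1)
  have h2 : (monomial t.2.1 1 : S k) • (Pi.single t.1 1 : Fin r → S k) =
      Pi.single t.1 (monomial t.2.1 1) := by
    rw [← Pi.single_smul, smul_eq_mul, mul_one]
  unfold coord
  rw [← h2, h1, hm]

end Pool.Agent.Lib.TSQ
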