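import Pool.Agent.Lib.TSQ.MatA

/-!
# From matrices to points with a frame

`φ` from `exists_ev`, `q f := ∑ j, φ (f j) *ᵥ v j`, `K := ker q` (an `S`-submodule because
`q (g • f) = φ g *ᵥ q f`); `q` is onto because the minor is not zero; `orig ^ N` kills the quotient for
`N` large because the `A ν` commute and are nilpotent (`N = n₀ + n₁ + n₂` works: `orig ^ N` is spanned by
products of `N` variables, `Ideal.span_pow_eq_map_homogeneousSubmodule` or induction; or: the ideal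
`orig` is finitely generated and each generator is nilpotent modulo the ideal `ker φ`).
-/

namespace Pool.Agent.Lib.TSQ

open MvPolynomial Matrix

universe u

variable {k : Type u} [Field k] {r d : ℕ}

namespace MatBAux

/-- the frame map `f ↦ ∑ j, φ (f j) *ᵥ v j` -/
noncomputable def qq (φ : S k →ₐ[k] Matrix (Fin d) (Fin d) k) (v : Fin r → Fin d → k) :
    (Fin r → S k) →ₗ[k] (Fin d → k) where
  toFun f := ∑ j, φ (f j) *ᵥ v j
  map_add' f g := by
    simp only [Pi.add_apply, map_add, Matrix.add_mulVec, Finset.sum_add_distrib]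
  map_smul' c f := by
    simp only [Pi.smul_apply, map_smul, Matrix.smul_mulVec, Finset.smul_sum, RingHom.id_apply]

theorem qq_apply (φ : S k →ₐ[k] Matrix (Fin d) (Fin d) k) (v : Fin r → Fin d → k)
    (f : Fin r → S k) : qq φ v f = ∑ j, φ (f j) *ᵥ v j := rfl

theorem qq_smul (φ : S k →ₐ[k] Matrix (Fin d) (Fin d) k) (v : Fin r → Fin d → k)
    (g : S k) (f : Fin r → S k) : qq φ v (g • f) = φ g *ᵥ qq φ v f := by
  rw [qq_apply, qq_apply]
  have h : φ g *ᵥ (∑ j, φ (f j) *ᵥ v j) = ∑ j, φ g *ᵥ (φ (f j) *ᵥ v j) := by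
    have := map_sum (Matrix.mulVecLin (φ g)) (fun j => φ (f j) *ᵥ v j) Finset.univ
    simpa only [Matrix.mulVecLin_apply] using this
  rw [h]
  refine Finset.sum_congr rfl fun j _ => ?_
  rw [Matrix.mulVec_mulVec, Pi.smul_apply, smul_eq_mul, map_mul]

theorem qq_single (φ : S k →ₐ[k] Matrix (Fin d) (Fin d) k) (v : Fin r → Fin d → k)
    (j : Fin r) (g : S k) : qq φ v (Pi.single j g) = φ g *ᵥ v j := by
  rw [qq_apply, Finset.sum_eq_single j]
  · rw [Pi.single_eq_same]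
  · intro i _ hi
    rw [Pi.single_eq_of_ne hi, map_zero, Matrix.zero_mulVec]
  · intro h
    exact absurd (Finset.mem_univ j) h

/-- the kernel as a submodule over the polynomial ring -/
noncomputable def kk (φ : S k →ₐ[k] Matrix (Fin d) (Fin d) k) (v : Fin r → Fin d → k) :
    Submodule (S k) (Fin r → S k) where
  carrier := {f | qq φ v f = 0}
  add_mem' {a b} ha hb := by
    simp only [Set.mem_setOf_eq] at ha hb ⊢
    rw [map_add, ha, hb, add_zero]
  zero_mem' := by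
    simp only [Set.mem_setOf_eq, map_zero]
  smul_mem' g f hf := by
    simp only [Set.mem_setOf_eq] at hf ⊢
    rw [qq_smul, hf, Matrix.mulVec_zero]

theorem mem_kk (φ : S k →ₐ[k] Matrix (Fin d) (Fin d) k) (v : Fin r → Fin d → k)
    (f : Fin r → S k) : f ∈ kk φ v ↔ qq φ v f = 0 := Iff.rfl

theorem kk_restrict (φ : S k →ₐ[k] Matrix (Fin d) (Fin d) k) (v : Fin r → Fin d → k) :
    (kk φ v).restrictScalars k = LinearMap.ker (qq φ v) := by
  ext f
  rw [Submodule.restrictScalars_mem, mem_kk, LinearMap.mem_ker]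

/-- the quotient is isomorphic to `k^d` -/
noncomputable def ee (φ : S k →ₐ[k] Matrix (Fin d) (Fin d) k) (v : Fin r → Fin d → k)
    (hs : Function.Surjective (qq φ v)) :
    ((Fin r → S k) ⧸ kk φ v) ≃ₗ[k] (Fin d → k) :=
  ((Submodule.Quotient.restrictScalarsEquiv k (kk φ v)).symm.trans
    (Submodule.quotEquivOfEq _ _ (kk_restrict φ v))).trans
    ((qq φ v).quotKerEquivOfSurjective hs)

theorem qq_surj (φ : S k →ₐ[k] Matrix (Fin d) (Fin d) k) (v : Fin r → Fin d → k)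
    (l : Fin d → Fin r) (g : Fin d → S k)
    (hdet : (Matrix.of fun i j => (φ (g j) *ᵥ v (l j)) i).det ≠ 0) :
    Function.Surjective (qq φ v) := by
  intro b
  set M : Matrix (Fin d) (Fin d) k := Matrix.of fun i j => (φ (g j) *ᵥ v (l j)) i with hM
  have hu : IsUnit M.det := isUnit_iff_ne_zero.2 hdet
  refine ⟨∑ j, (M⁻¹ *ᵥ b) j • Pi.single (l j) (g j), ?_⟩
  rw [map_sum]
  have h1 : ∀ j, qq φ v ((M⁻¹ *ᵥ b) j • Pi.single (l j) (g j)) =
      (M⁻¹ *ᵥ b) j • (φ (g j) *ᵥ v (l j)) := by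
    intro j
    rw [map_smul, qq_single]
  rw [Finset.sum_congr rfl fun j _ => h1 j]
  have h2 : M *ᵥ (M⁻¹ *ᵥ b) = b := by
    rw [Matrix.mulVec_mulVec, Matrix.mul_nonsing_inv M hu, Matrix.one_mulVec]
  ext i
  have h3 : (M *ᵥ (M⁻¹ *ᵥ b)) i = b i := by rw [h2]
  rw [← h3, Finset.sum_apply]
  show _ = ∑ j, M i j * (M⁻¹ *ᵥ b) j
  refine Finset.sum_congr rfl fun j _ => ?_
  rw [Pi.smul_apply, smul_eq_mul, mul_comm]
  rfl

theorem pow_le (φ : S k →ₐ[k] Matrix (Fin d) (Fin d) k)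
    (hn : ∀ ν, IsNilpotent (φ (X ν))) :
    ∃ N : ℕ, ∀ g ∈ (orig k) ^ N, φ g = 0 := by
  have h1 : orig k ≤ (RingHom.ker φ.toRingHom).radical := by
    rw [orig, Ideal.span_le]
    rintro _ ⟨ν, rfl⟩
    obtain ⟨n, hn'⟩ := hn ν
    refine ⟨n, ?_⟩
    rw [RingHom.mem_ker]
    show φ (X ν ^ n) = 0
    rw [map_pow, hn']
  have h2 : (orig k).FG := IsNoetherian.noetherian _
  obtain ⟨N, hN⟩ := Ideal.exists_pow_le_of_le_radical_of_fg h1 h2
  refine ⟨N, fun g hg => ?_⟩
  have := hN hg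
  rw [RingHom.mem_ker] at this
  exact this

end MatBAux

open MatBAux in
theorem mat_frame (A : Fin 3 → Matrix (Fin d) (Fin d) k) (hA : ∀ i j, A i * A j = A j * A i)
    (hn : ∀ ν, IsNilpotent (A ν)) (v : Fin r → Fin d → k)
    (l : Fin d → Fin r) (β : Fin d → (Fin 3 →₀ ℕ))
    (hdet : (Matrix.of fun i j => (mon A (β j) *ᵥ v (l j)) i).det ≠ 0) :
    ∃ (K : PQuot k r d) (q : (Fin r → S k) →ₗ[k] (Fin d → k)), IsFrame K q ∧
      (∀ (ν : Fin 3) (f : Fin r → S k), q ((X ν : S k) • f) = A ν *ᵥ q f) ∧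
      (∀ j, q (Pi.single j 1) = v j) ∧
      ∀ t, coord q t = (mon A t.2.1 *ᵥ v t.1) t.2.2 := by
  obtain ⟨φ, hφ, hφm⟩ := exists_ev A hA
  have hdet' : (Matrix.of fun i j => (φ (monomial (β j) 1) *ᵥ v (l j)) i).det ≠ 0 := by
    simpa only [hφm] using hdet
  have hs : Function.Surjective (qq φ v) :=
    qq_surj φ v l (fun j => monomial (β j) 1) hdet'
  obtain ⟨N, hN⟩ := pow_le φ (fun ν => by rw [hφ ν]; exact hn ν)
  have e := ee φ v hs
  refine ⟨⟨kk φ v, Module.Finite.equiv e.symm, ?_, N, ?_⟩, qq φ v, ⟨hs, fun f => Iff.rfl⟩, ?_, ?_, ?_⟩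
  · rw [e.finrank_eq, Module.finrank_fin_fun]
  · rw [Submodule.smul_le]
    intro g hg f _
    rw [mem_kk, qq_smul, hN g hg, Matrix.zero_mulVec]
  · intro ν f
    rw [qq_smul, hφ ν]
  · intro j
    rw [qq_single, map_one, Matrix.one_mulVec]
  · intro t
    show qq φ v (Pi.single t.1 (monomial t.2.1 1)) t.2.2 = _
    rw [qq_single, hφm]

end Pool.Agent.Lib.TSQ
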