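import Pool.Agent.Lib.TSQ.MatA

/-!
# Frames: minors, existence, nilpotency, two-step

* `frame_minor`: the vectors `q (x^α e_j)` span `k^d`, so `d` of them are a basis.
* `exists_frame`: choose a basis of the quotient (`finrank = d`).
* `frame_nilp`: `φ f ^ N = 0` for `f ∈ orig` since `orig ^ N • ⊤ ≤ K` and `q` is onto.
* `two_step`: if `orig ^ 2 • ⊤ ≤ K` then `A i * A j = 0`.
-/

namespace Pool.Agent.Lib.TSQ

open MvPolynomial Matrix

universe u

variable {k : Type u} [Field k] {r d : ℕ}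

namespace MatCAux

theorem mat_zero (M : Matrix (Fin d) (Fin d) k) (h : ∀ v, M *ᵥ v = 0) : M = 0 := by
  ext i j
  have h1 := congrFun (h (Pi.single j 1)) i
  rw [mulVec_single_one] at h1
  simpa using h1

theorem mem_span (q : (Fin r → S k) →ₗ[k] (Fin d → k)) (f : Fin r → S k) :
    q f ∈ Submodule.span k (Set.range fun t : Fin r × (Fin 3 →₀ ℕ) =>
      q (Pi.single t.1 (monomial t.2 1))) := by
  have h1 : ∀ (j : Fin r) (p : S k), q (Pi.single j p) ∈
      Submodule.span k (Set.range fun t : Fin r × (Fin 3 →₀ ℕ) =>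
        q (Pi.single t.1 (monomial t.2 1))) := by
    intro j p
    induction p using MvPolynomial.induction_on' with
    | monomial u a =>
      have h2 : (Pi.single j (monomial u a) : Fin r → S k) =
          a • Pi.single j (monomial u 1) := by
        rw [← Pi.single_smul, smul_monomial, smul_eq_mul, mul_one]
      rw [h2, map_smul]
      exact Submodule.smul_mem _ _ (Submodule.subset_span ⟨(j, u), rfl⟩)
    | add p p' hp hp' =>
      rw [Pi.single_add, map_add]
      exact Submodule.add_mem _ hp hp'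
  have h3 : f = ∑ j, Pi.single j (f j) := (Finset.univ_sum_single f).symm
  rw [h3, map_sum]
  exact Submodule.sum_mem _ fun j _ => h1 j _

end MatCAux

open MatCAux

theorem frame_minor (K : PQuot k r d) (q : (Fin r → S k) →ₗ[k] (Fin d → k)) (hq : IsFrame K q) :
    ∃ (l : Fin d → Fin r) (β : Fin d → (Fin 3 →₀ ℕ)),
      (Matrix.of fun i j => coord q (l j, β j, i)).det ≠ 0 := by
  obtain ⟨b, hb1, hb2, hb3⟩ := exists_linearIndependent k
    (Set.range fun t : Fin r × (Fin 3 →₀ ℕ) => q (Pi.single t.1 (monomial t.2 1)))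
  have hspan : Submodule.span k b = ⊤ := by
    rw [hb2, Submodule.eq_top_iff']
    intro v
    obtain ⟨f, rfl⟩ := hq.1 v
    exact mem_span q f
  let B : Module.Basis b k (Fin d → k) := Module.Basis.mk hb3 (by
    rw [Subtype.range_coe_subtype, Set.ofPred_mem_eq, hspan])
  have : Finite b := Module.Finite.finite_basis B
  have : Fintype b := Fintype.ofFinite b
  have hcard : Fintype.card b = d := by
    rw [← Module.finrank_eq_card_basis B, Module.finrank_fin_fun]
  let e : b ≃ Fin d := Fintype.equivFinOfCardEq hcard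
  have hpre : ∀ j : Fin d, ∃ t : Fin r × (Fin 3 →₀ ℕ),
      q (Pi.single t.1 (monomial t.2 1)) = (e.symm j : Fin d → k) := fun j =>
    hb1 (e.symm j).2
  choose t ht using hpre
  refine ⟨fun j => (t j).1, fun j => (t j).2, ?_⟩
  have hM : (Matrix.of fun i j => coord q ((t j).1, (t j).2, i)) =
      (Matrix.of fun j => (e.symm j : Fin d → k))ᵀ := by
    ext i j
    rw [Matrix.of_apply, Matrix.transpose_apply, Matrix.of_apply, ← ht j]
    rfl
  have hli : LinearIndependent k (Matrix.of fun j => (e.symm j : Fin d → k)).row :=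
    hb3.comp e.symm e.symm.injective
  rw [hM, Matrix.det_transpose]
  have hu := Matrix.linearIndependent_rows_iff_isUnit.1 hli
  exact ((Matrix.isUnit_iff_isUnit_det _).1 hu).ne_zero

theorem exists_frame (K : PQuot k r d) : ∃ q, IsFrame K q := by
  have : Module.Finite k ((Fin r → S k) ⧸ K.1) := K.2.1
  let B : Module.Basis (Fin d) k ((Fin r → S k) ⧸ K.1) :=
    Module.finBasisOfFinrankEq k _ K.2.2.1
  refine ⟨B.equivFun.toLinearMap ∘ₗ (K.1.mkQ.restrictScalars k), ?_, fun f => ?_⟩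
  · exact B.equivFun.surjective.comp K.1.mkQ_surjective
  · change B.equivFun (K.1.mkQ f) = 0 ↔ _
    rw [LinearEquiv.map_eq_zero_iff, Submodule.mkQ_apply, Submodule.Quotient.mk_eq_zero]

theorem frame_nilp (K : PQuot k r d) (q : (Fin r → S k) →ₗ[k] (Fin d → k)) (hq : IsFrame K q)
    (φ : S k →ₐ[k] Matrix (Fin d) (Fin d) k)
    (hφ : ∀ (g : S k) (f : Fin r → S k), q (g • f) = φ g *ᵥ q f) (f : S k) (hf : f ∈ orig k) :
    IsNilpotent (φ f) := by
  obtain ⟨N, hN⟩ := K.2.2.2
  refine ⟨N, mat_zero _ fun v => ?_⟩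
  obtain ⟨g, rfl⟩ := hq.1 v
  rw [← map_pow, ← hφ, hq.2]
  exact hN (Submodule.smul_mem_smul (Ideal.pow_mem_pow hf N) Submodule.mem_top)

theorem two_step (K : PQuot k r d) (q : (Fin r → S k) →ₗ[k] (Fin d → k)) (hq : IsFrame K q)
    (A : Fin 3 → Matrix (Fin d) (Fin d) k)
    (hA : ∀ (ν : Fin 3) (f : Fin r → S k), q ((X ν : S k) • f) = A ν *ᵥ q f)
    (h2 : (orig k) ^ 2 • (⊤ : Submodule (S k) (Fin r → S k)) ≤ K.1) (i j : Fin 3) :
    A i * A j = 0 := by
  refine mat_zero _ fun v => ?_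
  obtain ⟨g, rfl⟩ := hq.1 v
  rw [← mulVec_mulVec, ← hA, ← hA, ← mul_smul, hq.2]
  have h3 : ∀ ν : Fin 3, (X ν : S k) ∈ orig k := fun ν => Ideal.subset_span ⟨ν, rfl⟩
  refine h2 (Submodule.smul_mem_smul ?_ Submodule.mem_top)
  rw [pow_two]
  exact Ideal.mul_mem_mul (h3 i) (h3 j)

end Pool.Agent.Lib.TSQ
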