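import Pool.Agent.Lib.TSQ.Defs

/-!
# Matrices: shift matrices, nilpotent Toeplitz matrices, monomials in a triple
-/

namespace Pool.Agent.Lib.TSQ

noncomputable section

open MvPolynomial Matrix

universe u

/-- the matrix of multiplication by `t^n` on `k[t]/(t^d)` in the basis `1, t, …, t^(d-1)` -/
def Jp (R : Type u) [CommRing R] (d n : ℕ) : Matrix (Fin d) (Fin d) R :=
  Matrix.of fun i j => if (i : ℕ) = (j : ℕ) + n then 1 else 0

/-- the matrix of multiplication by `∑ c_m t^(m+1)` -/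
def toep {R : Type u} [CommRing R] {d : ℕ} (c : Fin d → R) : Matrix (Fin d) (Fin d) R :=
  ∑ m, c m • Jp R d ((m : ℕ) + 1)

/-- the ordered monomial `A_0^(α 0) A_1^(α 1) A_2^(α 2)` -/
def mon {R : Type u} [CommRing R] {d : ℕ} (A : Fin 3 → Matrix (Fin d) (Fin d) R)
    (α : Fin 3 →₀ ℕ) : Matrix (Fin d) (Fin d) R :=
  A 0 ^ α 0 * A 1 ^ α 1 * A 2 ^ α 2

/-- parameters: a matrix `G`, three families of Toeplitz coefficients, `r` vectors -/
abbrev Par (r d : ℕ) : Type := (Fin d × Fin d) ⊕ (Fin 3 × Fin d) ⊕ (Fin r × Fin d)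

variable {R : Type u} [CommRing R] {r d : ℕ}

def Gm (x : Par r d → R) : Matrix (Fin d) (Fin d) R := Matrix.of fun i j => x (Sum.inl (i, j))
def cm (x : Par r d → R) (ν : Fin 3) : Fin d → R := fun m => x (Sum.inr (Sum.inl (ν, m)))
def vm (x : Par r d → R) (j : Fin r) : Fin d → R := fun i => x (Sum.inr (Sum.inr (j, i)))

/-- the triple `G · p_ν(J) · adj G` -/
def Am (x : Par r d → R) (ν : Fin 3) : Matrix (Fin d) (Fin d) R :=
  Gm x * toep (cm x ν) * (Gm x).adjugate

/-- the coordinates of the frame defined by the parameters -/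
def phi (x : Par r d → R) : Fin r × (Fin 3 →₀ ℕ) × Fin d → R :=
  fun t => (mon (Am x) t.2.1 *ᵥ vm x t.1) t.2.2

end

end Pool.Agent.Lib.TSQ
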