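import Pool.Agent.Lib.TSQ.Toep

/-!
# The parametrisation is polynomial; a good parameter point

* `exists_Phi`: take `phi` over `MvPolynomial (Par r d) k` at `x = X`; `phi` commutes with ring
  homomorphisms (`RingHom.mapMatrix`, `RingHom.map_adjugate`, `RingHom.map_mulVec`).
* `exists_param`: `Gm = 1`, `c_0 = (1,0,…,0)`, `v_j = e_0`, `β j = j • e_0` (`Finsupp.single 0 j`): the matrix
  of the minor is the identity (`toep = Jp 1`, `Jp 1 ^ j = Jp j`, `Jp j *ᵥ e_0 = e_j`).
-/

namespace Pool.Agent.Lib.TSQ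

open MvPolynomial Matrix

universe u

variable {k : Type u} [Field k] {r d : ℕ}

namespace ParAAux

variable {R R' : Type*} [CommRing R] [CommRing R']

theorem map_Jp (f : R →+* R') (n : ℕ) : f.mapMatrix (Jp R d n) = Jp R' d n := by
  ext i j
  simp only [RingHom.mapMatrix_apply, Matrix.map_apply, Jp, Matrix.of_apply]
  split_ifs <;> simp

theorem map_toep (f : R →+* R') (c : Fin d → R) :
    f.mapMatrix (toep c) = toep (fun m => f (c m)) := by
  unfold toep
  rw [map_sum]
  refine Finset.sum_congr rfl fun m _ => ?_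
  rw [← map_Jp f]
  ext i j
  simp [RingHom.mapMatrix_apply, Matrix.map_apply, Matrix.smul_apply]

theorem map_Am (f : R →+* R') (x : Par r d → R) (ν : Fin 3) :
    f.mapMatrix (Am x ν) = Am (fun p => f (x p)) ν := by
  unfold Am
  rw [map_mul, map_mul, map_toep, RingHom.map_adjugate]
  rfl

theorem map_mon (f : R →+* R') (A : Fin 3 → Matrix (Fin d) (Fin d) R) (α : Fin 3 →₀ ℕ) :
    f.mapMatrix (mon A α) = mon (fun ν => f.mapMatrix (A ν)) α := by
  unfold mon
  simp only [map_mul, map_pow]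

theorem map_phi (f : R →+* R') (x : Par r d → R) (t : Fin r × (Fin 3 →₀ ℕ) × Fin d) :
    f (phi x t) = phi (fun p => f (x p)) t := by
  unfold phi
  rw [RingHom.map_mulVec]
  have h : (mon (Am x) t.2.1).map f = mon (Am fun p => f (x p)) t.2.1 := by
    have h1 := map_mon f (Am x) t.2.1
    rw [RingHom.mapMatrix_apply] at h1
    rw [h1]
    congr 1
    funext ν
    exact map_Am f x ν
  rw [h]
  rfl

theorem Jp_pow (n : ℕ) : Jp R d 1 ^ n = Jp R d n := by
  induction n with
  | zero => rw [pow_zero, Jp_zero]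
  | succ n ih => rw [pow_succ, ih, Jp_mul]

/-- the parameter point -/
def x0 (k : Type u) [Field k] (r d : ℕ) : Par r d → k :=
  Sum.elim (fun p => if p.1 = p.2 then 1 else 0)
    (Sum.elim (fun p => if (p.2 : ℕ) = 0 then 1 else 0) (fun p => if (p.2 : ℕ) = 0 then 1 else 0))

theorem Gm_x0 : Gm (x0 k r d) = 1 := by
  ext i j
  simp [Gm, x0, Matrix.one_apply]

theorem toep_x0 (ν : Fin 3) (hd : 0 < d) : toep (cm (x0 k r d) ν) = Jp k d 1 := by
  unfold toep
  rw [Finset.sum_eq_single (⟨0, hd⟩ : Fin d)]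
  · simp [cm, x0]
  · intro m _ hm
    have : (m : ℕ) ≠ 0 := fun h => hm (Fin.ext h)
    simp [cm, x0, this]
  · intro h
    exact absurd (Finset.mem_univ _) h

theorem Am_x0 (ν : Fin 3) (hd : 0 < d) : Am (x0 k r d) ν = Jp k d 1 := by
  unfold Am
  rw [Gm_x0, toep_x0 ν hd, Matrix.adjugate_one, one_mul, mul_one]

end ParAAux

open ParAAux

theorem exists_Phi (k : Type u) [Field k] (r d : ℕ) :
    ∃ Φ : Fin r × (Fin 3 →₀ ℕ) × Fin d → MvPolynomial (Par r d) k,
      ∀ (x : Par r d → k) t, eval x (Φ t) = phi x t := by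
  refine ⟨phi (X : Par r d → MvPolynomial (Par r d) k), fun x t => ?_⟩
  rw [map_phi]
  congr 1
  funext p
  exact eval_X p

/-- there is a parameter point with a nonzero minor: `Gm = 1`, `c_0 = (1,0,…)`, `v_j = e_0`,
`β j = j • e_0`: the matrix of the minor is the identity -/
theorem exists_param (hr : 0 < r) (hd : 0 < d) :
    ∃ (x : Par r d → k) (l : Fin d → Fin r) (β : Fin d → (Fin 3 →₀ ℕ)), (Gm x).det ≠ 0 ∧
      cm x 0 ⟨0, hd⟩ ≠ 0 ∧ (Matrix.of fun i j => phi x (l j, β j, i)).det ≠ 0 := by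
  refine ⟨x0 k r d, fun _ => ⟨0, hr⟩, fun j => Finsupp.single 0 (j : ℕ), ?_, ?_, ?_⟩
  · rw [Gm_x0, Matrix.det_one]
    exact one_ne_zero
  · simp [cm, x0]
  · have h : (Matrix.of fun i j : Fin d =>
        phi (x0 k r d) ((⟨0, hr⟩ : Fin r), Finsupp.single 0 (j : ℕ), i)) = 1 := by
      ext i j
      rw [Matrix.of_apply]
      have h1 : mon (Am (x0 k r d)) (Finsupp.single 0 (j : ℕ)) = Jp k d j := by
        unfold mon
        rw [Am_x0 0 hd, Finsupp.single_eq_same, Finsupp.single_eq_of_ne (by decide),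
          Finsupp.single_eq_of_ne (by decide), pow_zero, pow_zero, mul_one, mul_one, Jp_pow]
      unfold phi
      rw [h1]
      simp only [Matrix.mulVec, dotProduct]
      rw [Finset.sum_eq_single (⟨0, hd⟩ : Fin d)]
      · simp only [Jp, Matrix.of_apply, vm, x0, Sum.elim_inr, Matrix.one_apply, zero_add,
          if_true, mul_one, Fin.ext_iff]
      · intro m _ hm
        have : (m : ℕ) ≠ 0 := fun h => hm (Fin.ext h)
        simp [vm, x0, this]
      · intro h
        exact absurd (Finset.mem_univ _) h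
    rw [h, Matrix.det_one]
    exact one_ne_zero

end Pool.Agent.Lib.TSQ
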