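import Pool.Agent.Lib.TSQ.Toep

/-!
# Matrices commuting with a regular nilpotent matrix

PROOF: choose `w` with `N^(d-1) w ≠ 0`, `G` = matrix with columns `w, N w, …, N^(d-1) w` (linearly
independent since `N^d = 0`, `N^(d-1) w ≠ 0`); `N G = G Jp 1`. If `A` commutes with `N` then `A' = G⁻¹ A G`
commutes with `Jp 1`, hence is `∑_{m<d} e_m Jp m` (`A' e_j = A' (Jp 1)^j e_0 = (Jp 1)^j A' e_0`,
`e_m = A' m 0`); it is nilpotent only if `e_0 = 0` (it is lower triangular with diagonal `e_0`), and then it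
is `toep c` with `c m = e_(m+1)` (`c (d-1)` arbitrary, `Jp d = 0`).
-/

namespace Pool.Agent.Lib.TSQ

open MvPolynomial Matrix

universe u

variable {k : Type u} [Field k] {d : ℕ}

namespace RegAux

theorem pow_card (N : Matrix (Fin d) (Fin d) k) (hN : IsNilpotent N) : N ^ d = 0 := by
  have h1 := Matrix.isNilpotent_charpoly_sub_pow_of_isNilpotent hN
  have h2 : N.charpoly = Polynomial.X ^ (Fintype.card (Fin d)) := sub_eq_zero.1 h1.eq_zero
  have h3 := Matrix.aeval_self_charpoly N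
  rw [h2] at h3
  simpa using h3

/-- the matrix with columns `N^j w` -/
noncomputable def kry (N : Matrix (Fin d) (Fin d) k) (w : Fin d → k) : Matrix (Fin d) (Fin d) k :=
  Matrix.of fun i j => (N ^ (j : ℕ) *ᵥ w) i

theorem kry_mulVec (N : Matrix (Fin d) (Fin d) k) (w a : Fin d → k) :
    kry N w *ᵥ a = ∑ j : Fin d, a j • (N ^ (j : ℕ) *ᵥ w) := by
  ext i
  simp [Matrix.mulVec, dotProduct, kry, Finset.sum_apply, mul_comm]

theorem kry_inj (N : Matrix (Fin d) (Fin d) k) (w : Fin d → k) (h0 : N ^ d = 0)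
    (hw : N ^ (d - 1) *ᵥ w ≠ 0) (a : Fin d → k) (ha : kry N w *ᵥ a = 0) : a = 0 := by
  have key : ∀ m : ℕ, ∀ hm : m < d, a ⟨m, hm⟩ = 0 := by
    intro m
    induction m using Nat.strong_induction_on with
    | _ m ih =>
      intro hm
      have h1 : N ^ (d - 1 - m) *ᵥ (kry N w *ᵥ a) = 0 := by rw [ha, Matrix.mulVec_zero]
      rw [kry_mulVec, Matrix.mulVec_sum] at h1
      have h2 : ∀ j : Fin d, j ≠ ⟨m, hm⟩ →
          N ^ (d - 1 - m) *ᵥ (a j • (N ^ (j : ℕ) *ᵥ w)) = 0 := by
        intro j hj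
        rcases lt_trichotomy (j : ℕ) m with hlt | heq | hgt
        · have := ih j hlt j.2
          have h3 : a j = 0 := this
          rw [h3, zero_smul, Matrix.mulVec_zero]
        · exact absurd (Fin.ext heq) hj
        · rw [Matrix.mulVec_smul, Matrix.mulVec_mulVec, ← pow_add]
          have h4 : d - 1 - m + (j : ℕ) = d + (d - 1 - m + (j : ℕ) - d) := by omega
          rw [h4, pow_add, h0, zero_mul, Matrix.zero_mulVec, smul_zero]
      rw [Finset.sum_eq_single_of_mem (⟨m, hm⟩ : Fin d) (Finset.mem_univ _)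
        (fun j _ hj => h2 j hj)] at h1
      rw [Matrix.mulVec_smul, Matrix.mulVec_mulVec, ← pow_add] at h1
      have h5 : d - 1 - m + ((⟨m, hm⟩ : Fin d) : ℕ) = d - 1 := by
        show d - 1 - m + m = d - 1
        omega
      rw [h5] at h1
      rcases smul_eq_zero.1 h1 with h6 | h6
      · exact h6
      · exact absurd h6 hw
  ext j
  exact key j j.2

theorem pow_kry (N : Matrix (Fin d) (Fin d) k) (w : Fin d → k) (h0 : N ^ d = 0) (j : ℕ) :
    N ^ j * kry N w = kry N w * Jp k d j := by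
  ext i l
  have h1 : (N ^ j * kry N w) i l = (N ^ (j + (l : ℕ)) *ᵥ w) i := by
    rw [pow_add, ← Matrix.mulVec_mulVec]
    rfl
  rw [h1, Matrix.mul_apply]
  by_cases h : (l : ℕ) + j < d
  · rw [Finset.sum_eq_single_of_mem (⟨(l : ℕ) + j, h⟩ : Fin d) (Finset.mem_univ _)]
    · simp only [Jp, kry, Matrix.of_apply]
      rw [if_pos trivial, mul_one, add_comm j]
    · intro s _ hs
      simp only [Jp, Matrix.of_apply]
      rw [if_neg, mul_zero]
      intro h2
      exact hs (Fin.ext h2)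
  · have h2 : j + (l : ℕ) = d + (j + (l : ℕ) - d) := by omega
    rw [h2, pow_add, h0, zero_mul, Matrix.zero_mulVec]
    symm
    apply Finset.sum_eq_zero
    intro s _
    simp only [Jp, Matrix.of_apply]
    rw [if_neg, mul_zero]
    have := s.2
    omega

theorem main (n : ℕ) (N : Matrix (Fin (n + 1)) (Fin (n + 1)) k) (hN : IsNilpotent N)
    (hN' : N ^ n ≠ 0) :
    ∃ G : Matrix (Fin (n + 1)) (Fin (n + 1)) k, IsUnit G.det ∧
      ∀ A : Matrix (Fin (n + 1)) (Fin (n + 1)) k, A * N = N * A → IsNilpotent A →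
        ∃ c : Fin (n + 1) → k, A = G * toep c * G⁻¹ := by
  classical
  have h0 : N ^ (n + 1) = 0 := pow_card N hN
  obtain ⟨w, hw⟩ : ∃ w : Fin (n + 1) → k, N ^ n *ᵥ w ≠ 0 := by
    by_contra hcon
    push Not at hcon
    apply hN'
    ext i j
    have := hcon (Pi.single j 1)
    rw [Matrix.mulVec_single_one] at this
    exact congrFun this i
  have hinj : Function.Injective (kry N w).mulVec := by
    intro a b hab
    have h1 : kry N w *ᵥ (a - b) = 0 := by
      rw [Matrix.mulVec_sub, sub_eq_zero]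
      exact hab
    exact sub_eq_zero.1 (kry_inj N w h0 hw _ h1)
  have hunit : IsUnit (kry N w) := Matrix.mulVec_injective_iff_isUnit.1 hinj
  have hdet : IsUnit (kry N w).det := (Matrix.isUnit_iff_isUnit_det _).1 hunit
  refine ⟨kry N w, hdet, fun A hA hnil => ?_⟩
  set G := kry N w with hG
  have hGG : G * G⁻¹ = 1 := Matrix.mul_nonsing_inv _ hdet
  set e : Fin (n + 1) → k := G⁻¹ *ᵥ (A *ᵥ w) with he
  have hAw : A *ᵥ w = ∑ j : Fin (n + 1), e j • (N ^ (j : ℕ) *ᵥ w) := by
    rw [← kry_mulVec, ← hG, he, Matrix.mulVec_mulVec, hGG, Matrix.one_mulVec]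
  have hAN : ∀ j : ℕ, A * N ^ j = N ^ j * A := by
    intro j
    exact ((show Commute A N from hA).pow_right j).eq
  set B : Matrix (Fin (n + 1)) (Fin (n + 1)) k := ∑ j : Fin (n + 1), e j • N ^ (j : ℕ) with hB
  have hBw : B *ᵥ w = A *ᵥ w := by
    rw [hAw, hB, Matrix.sum_mulVec]
    apply Finset.sum_congr rfl
    intro j _
    rw [Matrix.smul_mulVec]
  have hBN : ∀ j : ℕ, B * N ^ j = N ^ j * B := by
    intro j
    rw [hB, Finset.sum_mul, Finset.mul_sum]
    apply Finset.sum_congr rfl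
    intro i _
    rw [Matrix.smul_mul, Matrix.mul_smul, ← pow_add, ← pow_add, add_comm (i : ℕ) j]
  have hABG : A * G = B * G := by
    ext i j
    have h1 : (A * G) i j = (A *ᵥ (N ^ (j : ℕ) *ᵥ w)) i := rfl
    have h2 : (B * G) i j = (B *ᵥ (N ^ (j : ℕ) *ᵥ w)) i := rfl
    rw [h1, h2, Matrix.mulVec_mulVec, Matrix.mulVec_mulVec, hAN, hBN, ← Matrix.mulVec_mulVec,
      ← Matrix.mulVec_mulVec, hBw]
  have hAB : A = B := by
    have h1 : A * G * G⁻¹ = B * G * G⁻¹ := by rw [hABG]
    rwa [Matrix.mul_assoc, Matrix.mul_assoc, hGG, Matrix.mul_one, Matrix.mul_one] at h1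
  have he0 : e 0 = 0 := by
    have hC : A - e 0 • (1 : Matrix (Fin (n + 1)) (Fin (n + 1)) k) =
        N * ∑ j : Fin n, e j.succ • N ^ (j : ℕ) := by
      rw [hAB, hB, Fin.sum_univ_succ, Finset.mul_sum]
      simp only [Fin.val_zero, pow_zero, add_sub_cancel_left, Fin.val_succ]
      apply Finset.sum_congr rfl
      intro j _
      rw [Matrix.mul_smul, pow_succ']
    have hcomm : Commute N (∑ j : Fin n, e j.succ • N ^ (j : ℕ)) := by
      apply Commute.sum_right
      intro j _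
      exact ((Commute.refl N).pow_right _).smul_right _
    have hCn : IsNilpotent (A - e 0 • (1 : Matrix (Fin (n + 1)) (Fin (n + 1)) k)) := by
      rw [hC]
      exact hcomm.isNilpotent_mul_right hN
    have hcomm2 : Commute A (A - e 0 • (1 : Matrix (Fin (n + 1)) (Fin (n + 1)) k)) := by
      apply Commute.sub_right (Commute.refl A)
      exact (Commute.one_right A).smul_right _
    have h3 : IsNilpotent (A - (A - e 0 • (1 : Matrix (Fin (n + 1)) (Fin (n + 1)) k))) :=
      hcomm2.isNilpotent_sub hnil hCn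
    rw [sub_sub_cancel] at h3
    obtain ⟨m, hm⟩ := h3
    rw [smul_pow, one_pow] at hm
    have h4 := congrFun (congrFun hm 0) 0
    rw [Matrix.smul_apply, Matrix.one_apply_eq, Matrix.zero_apply, smul_eq_mul, mul_one] at h4
    exact eq_zero_of_pow_eq_zero h4
  refine ⟨fun m => if h : (m : ℕ) + 1 < n + 1 then e ⟨(m : ℕ) + 1, h⟩ else 0, ?_⟩
  have hT : toep (fun m : Fin (n + 1) => if h : (m : ℕ) + 1 < n + 1 then e ⟨(m : ℕ) + 1, h⟩ else 0) =
      ∑ j : Fin (n + 1), e j • Jp k (n + 1) (j : ℕ) := by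
    rw [toep, Fin.sum_univ_castSucc, Fin.sum_univ_succ (n := n)]
    have h1 : ¬ (((Fin.last n : Fin (n + 1)) : ℕ) + 1 < n + 1) := by
      rw [Fin.val_last]
      omega
    rw [dif_neg h1, zero_smul, add_zero, he0, zero_smul, zero_add]
    apply Finset.sum_congr rfl
    intro j _
    have h2 : ((j.castSucc : Fin (n + 1)) : ℕ) + 1 < n + 1 := by
      rw [Fin.val_castSucc]
      have := j.2
      omega
    rw [dif_pos h2]
    rfl
  have hGT : B * G = G * ∑ j : Fin (n + 1), e j • Jp k (n + 1) (j : ℕ) := by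
    rw [hB, Finset.sum_mul, Finset.mul_sum]
    apply Finset.sum_congr rfl
    intro j _
    rw [Matrix.smul_mul, Matrix.mul_smul, hG, pow_kry N w h0]
  rw [hT, ← hGT, ← hAB, Matrix.mul_assoc, hGG, Matrix.mul_one]

end RegAux

theorem comm_regular (hd : 1 ≤ d) (N : Matrix (Fin d) (Fin d) k) (hN : IsNilpotent N)
    (hN' : N ^ (d - 1) ≠ 0) :
    ∃ G : Matrix (Fin d) (Fin d) k, IsUnit G.det ∧
      ∀ A : Matrix (Fin d) (Fin d) k, A * N = N * A → IsNilpotent A →
        ∃ c : Fin d → k, A = G * toep c * G⁻¹ := by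
  obtain ⟨n, rfl⟩ : ∃ n, d = n + 1 := ⟨d - 1, by omega⟩
  exact RegAux.main n N hN hN'

end Pool.Agent.Lib.TSQ
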