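import Pool.Agent.Lib.TSQ.MatB
import Pool.Agent.Lib.TSQ.MatC
import Pool.Agent.Lib.TSQ.Reg

/-!
# Every frame of a curvilinear point is `phi x`

`frame_mat`, `exists_ev`, `frame_ev`; `N = φ f` is nilpotent (`frame_nilp`) and `N^(d-1) ≠ 0` (`q` is onto,
`q (f^(d-1) • g) = φ f ^ (d-1) *ᵥ q g ≠ 0`); `comm_regular` for the `A ν` (nilpotent by `frame_nilp`, `X ν ∈ orig`);
`Gm x = G`, `cm x ν = (det G)⁻¹ • c ν`, `vm x j = q (e_j)`, `Am_eq`, `frame_coord`.
-/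

namespace Pool.Agent.Lib.TSQ

open MvPolynomial Matrix

universe u

variable {k : Type u} [Field k] {r d : ℕ}

theorem curv_param (hd : 1 ≤ d) (K : PQuot k r d) (hK : K ∈ Curv k r d)
    (q : (Fin r → S k) →ₗ[k] (Fin d → k)) (hq : IsFrame K q) :
    ∃ x : Par r d → k, (Gm x).det ≠ 0 ∧ coord q = phi x := by
  obtain ⟨A, hA, hqA⟩ := frame_mat K q hq
  obtain ⟨φ, hφX, -⟩ := exists_ev A hA
  obtain ⟨hev, -⟩ := frame_ev q A hqA φ hφX
  obtain ⟨f, hf, g, hg⟩ := hK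
  have hN : IsNilpotent (φ f) := frame_nilp K q hq φ hev f hf
  have hN' : φ f ^ (d - 1) ≠ 0 := by
    intro h
    apply hg
    rw [← hq.2, hev, map_pow, h, zero_mulVec]
  obtain ⟨G, hG, hGc⟩ := comm_regular hd (φ f) hN hN'
  have hex : ∀ ν, ∃ c : Fin d → k, A ν = G * toep c * G⁻¹ := by
    intro ν
    refine hGc (A ν) ?_ ?_
    · rw [← hφX ν, ← map_mul, ← map_mul, mul_comm]
    · rw [← hφX ν]
      exact frame_nilp K q hq φ hev (X ν) (Ideal.subset_span ⟨ν, rfl⟩)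
  choose c hc using hex
  let x : Par r d → k := Sum.elim (fun p => G p.1 p.2)
    (Sum.elim (fun p => G.det⁻¹ * c p.1 p.2) (fun p => q (Pi.single p.1 1) p.2))
  have hGx : Gm x = G := rfl
  have hcx : ∀ ν, cm x ν = G.det⁻¹ • c ν := fun ν => rfl
  have hvx : ∀ j, vm x j = q (Pi.single j 1) := fun j => rfl
  have hdet : G.det ≠ 0 := hG.ne_zero
  have hAm : Am x = A := by
    funext ν
    rw [Am_eq x (by rw [hGx]; exact hdet), hGx, hcx, smul_smul, mul_inv_cancel₀ hdet, one_smul,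
      ← hc ν]
  refine ⟨x, by rw [hGx]; exact hdet, ?_⟩
  funext t
  rw [frame_coord q A hA hqA t]
  unfold phi
  rw [hAm, hvx]

end Pool.Agent.Lib.TSQ
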