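import Pool.Agent.Lib.TSQ.MatB
import Pool.Agent.Lib.TSQ.Toep

/-!
# Parameters with `det G ≠ 0`, `c_0 ≠ 0` and a nonzero minor define a curvilinear point

`Am x ν = G toep(..) G⁻¹` (`Am_eq`) commute (`toep_comm`) and are nilpotent (`toep_nilp`); `mat_frame` gives `K`
and `q` with `coord q = phi x`; curvilinear: `f = X 0 ∈ orig`, `q (X 0 ^ (d-1) • g) = Am x 0 ^ (d-1) *ᵥ q g`,
`Am x 0 ^ (d-1) = G toep(..)^(d-1) G⁻¹ ≠ 0` (`toep_pow_ne`) and `q` is onto.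
-/

namespace Pool.Agent.Lib.TSQ

open MvPolynomial Matrix

universe u

variable {k : Type u} [Field k] {r d : ℕ}

namespace ParCAux

theorem Am_pow (x : Par r d → k) (hG : (Gm x).det ≠ 0) (ν : Fin 3) (n : ℕ) :
    Am x ν ^ n = Gm x * toep ((Gm x).det • cm x ν) ^ n * (Gm x)⁻¹ := by
  have hu : IsUnit (Gm x).det := isUnit_iff_ne_zero.2 hG
  induction n with
  | zero => rw [pow_zero, pow_zero, mul_one, Matrix.mul_nonsing_inv _ hu]
  | succ n ih =>
    rw [pow_succ, ih, Am_eq x hG, pow_succ]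
    have h1 : (Gm x)⁻¹ * Gm x = 1 := Matrix.nonsing_inv_mul _ hu
    calc Gm x * toep ((Gm x).det • cm x ν) ^ n * (Gm x)⁻¹ *
          (Gm x * toep ((Gm x).det • cm x ν) * (Gm x)⁻¹)
        = Gm x * toep ((Gm x).det • cm x ν) ^ n * ((Gm x)⁻¹ * Gm x) *
          toep ((Gm x).det • cm x ν) * (Gm x)⁻¹ := by simp only [Matrix.mul_assoc]
      _ = _ := by rw [h1, Matrix.mul_one]; simp only [Matrix.mul_assoc]

theorem Am_comm (x : Par r d → k) (hG : (Gm x).det ≠ 0) (i j : Fin 3) :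
    Am x i * Am x j = Am x j * Am x i := by
  have hu : IsUnit (Gm x).det := isUnit_iff_ne_zero.2 hG
  have h1 : (Gm x)⁻¹ * Gm x = 1 := Matrix.nonsing_inv_mul _ hu
  have h2 : ∀ a b : Fin 3, Am x a * Am x b =
      Gm x * (toep ((Gm x).det • cm x a) * toep ((Gm x).det • cm x b)) * (Gm x)⁻¹ := by
    intro a b
    rw [Am_eq x hG, Am_eq x hG]
    calc Gm x * toep ((Gm x).det • cm x a) * (Gm x)⁻¹ *
          (Gm x * toep ((Gm x).det • cm x b) * (Gm x)⁻¹)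
        = Gm x * toep ((Gm x).det • cm x a) * ((Gm x)⁻¹ * Gm x) *
          toep ((Gm x).det • cm x b) * (Gm x)⁻¹ := by simp only [Matrix.mul_assoc]
      _ = _ := by rw [h1, Matrix.mul_one]; simp only [Matrix.mul_assoc]
  rw [h2, h2, toep_comm]

theorem Am_nilp (x : Par r d → k) (hG : (Gm x).det ≠ 0) (ν : Fin 3) : IsNilpotent (Am x ν) :=
  ⟨d, by rw [Am_pow x hG, toep_nilp, Matrix.mul_zero, Matrix.zero_mul]⟩

theorem Am_pow_ne (hd : 0 < d) (x : Par r d → k) (hG : (Gm x).det ≠ 0)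
    (hc : cm x 0 ⟨0, hd⟩ ≠ 0) : Am x 0 ^ (d - 1) ≠ 0 := by
  have hu : IsUnit (Gm x).det := isUnit_iff_ne_zero.2 hG
  have h1 : (Gm x)⁻¹ * Gm x = 1 := Matrix.nonsing_inv_mul _ hu
  intro h
  apply toep_pow_ne hd ((Gm x).det • cm x 0)
    (by rw [Pi.smul_apply, smul_eq_mul]; exact mul_ne_zero hG hc)
  have h2 : (Gm x)⁻¹ * (Am x 0 ^ (d - 1)) * Gm x = 0 := by
    rw [h, Matrix.mul_zero, Matrix.zero_mul]
  rw [Am_pow x hG] at h2
  calc toep ((Gm x).det • cm x 0) ^ (d - 1)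
      = ((Gm x)⁻¹ * Gm x) * toep ((Gm x).det • cm x 0) ^ (d - 1) * ((Gm x)⁻¹ * Gm x) := by
        rw [h1, Matrix.one_mul, Matrix.mul_one]
    _ = (Gm x)⁻¹ * (Gm x * toep ((Gm x).det • cm x 0) ^ (d - 1) * (Gm x)⁻¹) * Gm x := by
        simp only [Matrix.mul_assoc]
    _ = 0 := h2

end ParCAux

open ParCAux in
theorem param_curv (hd : 0 < d) (x : Par r d → k) (hG : (Gm x).det ≠ 0)
    (hc : cm x 0 ⟨0, hd⟩ ≠ 0) (l : Fin d → Fin r) (β : Fin d → (Fin 3 →₀ ℕ))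
    (hdet : (Matrix.of fun i j => phi x (l j, β j, i)).det ≠ 0) :
    ∃ K ∈ Curv k r d, ∃ q, IsFrame K q ∧ coord q = phi x := by
  obtain ⟨K, q, hq, hX, hv, hcoord⟩ := mat_frame (Am x) (Am_comm x hG) (Am_nilp x hG) (vm x) l β
    hdet
  refine ⟨K, ?_, q, hq, ?_⟩
  · -- some vector is not killed by `Am x 0 ^ (d-1)`
    have hpow : ∀ (n : ℕ) (f : Fin r → S k), q ((X 0 : S k) ^ n • f) = Am x 0 ^ n *ᵥ q f := by
      intro n
      induction n with
      | zero => intro f; rw [pow_zero, pow_zero, one_smul, Matrix.one_mulVec]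
      | succ n ih =>
        intro f
        rw [pow_succ, mul_smul, ih, hX, Matrix.mulVec_mulVec, pow_succ]
    have hne := Am_pow_ne hd x hG hc
    have hex : ∃ w : Fin d → k, Am x 0 ^ (d - 1) *ᵥ w ≠ 0 := by
      by_contra hcon
      push Not at hcon
      apply hne
      apply Matrix.ext_of_mulVec_single
      intro j
      rw [hcon, Matrix.zero_mulVec]
    obtain ⟨w, hw⟩ := hex
    obtain ⟨g, hg⟩ := hq.1 w
    refine ⟨X 0, Ideal.subset_span ⟨0, rfl⟩, g, ?_⟩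
    intro hmem
    rw [← hq.2, hpow, hg] at hmem
    exact hw hmem
  · funext t
    exact hcoord t

end Pool.Agent.Lib.TSQ
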